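import Mathlib

/-!
# The free Flood-It game: definitions and the level lower bound (for MP_d0f7e0_co)
-/

namespace Pool.Agent.Lib.Flood

variable {V C : Type*}

/-- The graph joining adjacent vertices of equal colour: its connected components are the monochromatic components. -/
def mono (G : SimpleGraph V) (ω : V → C) : SimpleGraph V where
  Adj u v := G.Adj u v ∧ ω u = ω v
  symm := ⟨fun _ _ h => ⟨h.1.symm, h.2.symm⟩⟩
  loopless := ⟨fun _ h => G.loopless.irrefl _ h.1⟩

open Classical in
/-- The move `(v, d)`: recolour with `d` every vertex of the monochromatic component of `v`. -/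
noncomputable def move (G : SimpleGraph V) (ω : V → C) (p : V × C) : V → C :=
  fun w => if (mono G ω).Reachable p.1 w then p.2 else ω w

/-- The colouring after a list of moves. -/
noncomputable def play (G : SimpleGraph V) (ω : V → C) (l : List (V × C)) : V → C :=
  l.foldl (move G) ω

/-- The least number of moves after which every vertex has colour `d`. -/
noncomputable def movesTo (G : SimpleGraph V) (ω : V → C) (d : C) : ℕ :=
  sInf {t | ∃ l : List (V × C), l.length = t ∧ ∀ w, play G ω l w = d}

/-- The least number of moves after which all vertices have one colour. -/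
noncomputable def moves (G : SimpleGraph V) (ω : V → C) : ℕ :=
  sInf {t | ∃ d : C, t = movesTo G ω d}

/-- `M_c(G)`: the maximum of `moves G ω` over all surjective colourings `ω` with `c` colours. -/
noncomputable def M (c : ℕ) (G : SimpleGraph V) : ℕ :=
  sSup {t | ∃ ω : V → Fin c, Function.Surjective ω ∧ t = moves G ω}

/-- The `k × n` grid. -/
def grid (k n : ℕ) : SimpleGraph (Fin k × Fin n) :=
  (SimpleGraph.pathGraph k).boxProd (SimpleGraph.pathGraph n)

/-! ### moves -/

theorem mono_le_move (G : SimpleGraph V) (ω : V → C) (p : V × C) : mono G ω ≤ mono G (move G ω p) := by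
  classical
  intro u v h
  refine ⟨h.1, ?_⟩
  have e : (mono G ω).Reachable p.1 u ↔ (mono G ω).Reachable p.1 v :=
    ⟨fun r => r.trans (SimpleGraph.Adj.reachable h), fun r => r.trans (SimpleGraph.Adj.reachable h).symm⟩
  unfold move
  by_cases hu : (mono G ω).Reachable p.1 u
  · rw [if_pos hu, if_pos (e.1 hu)]
  · rw [if_neg hu, if_neg (fun h' => hu (e.2 h')), h.2]

/-- Equal colour along a monochromatic component. -/
theorem mono_eq {G : SimpleGraph V} {ω : V → C} {u v : V} (h : (mono G ω).Reachable u v) : ω u = ω v := by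
  obtain ⟨w⟩ := h
  induction w with
  | nil => rfl
  | cons h _ ih => exact h.2.trans ih

theorem play_snoc (G : SimpleGraph V) (ω : V → C) (l : List (V × C)) (p : V × C) :
    play G ω (l ++ [p]) = move G (play G ω l) p := by
  simp [play]

/-- Every graph can be flooded with any colour: the set in `movesTo` is nonempty. -/
theorem exists_flood [Finite V] (G : SimpleGraph V) (ω : V → C) (d : C) :
    ∃ l : List (V × C), ∀ w, play G ω l w = d := by
  classical
  haveI := Fintype.ofFinite V
  have key : ∀ S : Finset V, ∃ l : List (V × C), ∀ w ∈ S, play G ω l w = d := by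
    intro S
    induction S using Finset.induction_on with
    | empty => exact ⟨[], by simp⟩
    | insert a S _ ih =>
      obtain ⟨l, hl⟩ := ih
      refine ⟨l ++ [(a, d)], fun w hw => ?_⟩
      rw [play_snoc]
      unfold move
      split_ifs with h
      · rfl
      · rcases Finset.mem_insert.1 hw with rfl | hw
        · exact absurd (SimpleGraph.Reachable.refl _) h
        · exact hl w hw
  obtain ⟨l, hl⟩ := key Finset.univ
  exact ⟨l, fun w => hl w (Finset.mem_univ _)⟩

/-- A lower bound for every way to flood is a lower bound for `moves`. -/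
theorem le_moves [Finite V] [Nonempty C] (G : SimpleGraph V) (ω : V → C) (b : ℕ)
    (h : ∀ (d : C) (l : List (V × C)), (∀ w, play G ω l w = d) → b ≤ l.length) : b ≤ moves G ω := by
  obtain ⟨d, hd⟩ : ∃ d : C, moves G ω = movesTo G ω d :=
    Nat.sInf_mem (s := {t | ∃ d : C, t = movesTo G ω d}) ⟨_, Classical.arbitrary C, rfl⟩
  obtain ⟨l, hl, hw⟩ : ∃ l : List (V × C), l.length = movesTo G ω d ∧ ∀ w, play G ω l w = d := by
    obtain ⟨l, hl⟩ := exists_flood G ω d
    exact Nat.sInf_mem (s := {t | ∃ l : List (V × C), l.length = t ∧ ∀ w, play G ω l w = d}) ⟨_, l, rfl, hl⟩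
  rw [hd, ← hl]
  exact h d l hw

theorem le_M [Finite V] {c : ℕ} (G : SimpleGraph V) (ω : V → Fin c) (hω : Function.Surjective ω) (b : ℕ)
    (h : b ≤ moves G ω) : b ≤ M c G := by
  refine h.trans (le_csSup ?_ ⟨ω, hω, rfl⟩)
  refine Set.Finite.bddAbove ((Set.finite_range (fun ω : V → Fin c => moves G ω)).subset ?_)
  rintro t ⟨ω, _, rfl⟩
  exact ⟨ω, rfl⟩

/-! ### the potential -/

open Classical in
/-- The pairs (monochromatic component, level) whose level colour (the initial colour) differs from the current one. -/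
noncomputable def bad [Fintype V] (G : SimpleGraph V) (ℓ : V → ℕ) (ω₀ ω : V → C) : Finset ((mono G ω).ConnectedComponent × ℕ) :=
  (Finset.univ.filter (fun v => ω v ≠ ω₀ v)).image (fun v => ((mono G ω).connectedComponentMk v, ℓ v))

theorem mem_bad [Fintype V] {G : SimpleGraph V} {ℓ : V → ℕ} {ω₀ ω : V → C} {x : (mono G ω).ConnectedComponent × ℕ} :
    x ∈ bad G ℓ ω₀ ω ↔ ∃ v, ω v ≠ ω₀ v ∧ ((mono G ω).connectedComponentMk v, ℓ v) = x := by
  classical
  simp [bad]

/-- The potential. -/
noncomputable def pot [Fintype V] (G : SimpleGraph V) (ℓ : V → ℕ) (ω₀ ω : V → C) : ℕ := (bad G ℓ ω₀ ω).card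

/-- The levels of a set joined by a walk are all the levels in between. -/
theorem level_between {H : SimpleGraph V} {ℓ : V → ℕ} (hℓ : ∀ u v, H.Adj u v → ℓ u ≤ ℓ v + 1 ∧ ℓ v ≤ ℓ u + 1)
    {u v : V} (h : H.Reachable u v) {t : ℕ} (h1 : ℓ u ≤ t) (h2 : t ≤ ℓ v) : ∃ w, H.Reachable u w ∧ ℓ w = t := by
  obtain ⟨p⟩ := h
  induction p with
  | nil => exact ⟨_, SimpleGraph.Reachable.refl _, le_antisymm h1 h2⟩
  | @cons a b c hab p ih =>
    rcases Nat.lt_or_ge (ℓ a) t with hlt | hge
    · obtain ⟨w, hw, e⟩ := ih (by have := (hℓ a b hab).2; omega) h2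
      exact ⟨w, (SimpleGraph.Adj.reachable hab).trans hw, e⟩
    · exact ⟨a, SimpleGraph.Reachable.refl _, le_antisymm h1 hge⟩

/-- In a convex set of levels the classes mod `c` are balanced. -/
theorem balanced {c : ℕ} (S : Finset ℕ) (hS : ∀ a ∈ S, ∀ b ∈ S, ∀ t, a ≤ t → t ≤ b → t ∈ S) (d e : ℕ) (hd : d < c) (he : e < c) :
    (S.filter (fun s => s % c = e)).card ≤ (S.filter (fun s => s % c = d)).card + 1 := by
  classical
  rcases S.eq_empty_or_nonempty with rfl | hne
  · simp
  set a := S.min' hne
  set b := S.max' hne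
  have ha : a ∈ S := S.min'_mem hne
  have hb : b ∈ S := S.max'_mem hne
  -- shift down by δ
  obtain ⟨δ, hδc, hδ⟩ : ∃ δ, δ < c ∧ (d + δ) % c = e := by
    rcases Nat.lt_or_ge e d with h | h
    · exact ⟨c - (d - e), by omega, by rw [show d + (c - (d - e)) = e + c by omega, Nat.add_mod_right, Nat.mod_eq_of_lt he]⟩
    · exact ⟨e - d, by omega, by rw [show d + (e - d) = e by omega, Nat.mod_eq_of_lt he]⟩
  have hshift : ∀ s, s % c = e → δ ≤ s → (s - δ) % c = d := by
    intro s hs hle
    have h1 : (s - δ + δ) % c = (d + δ) % c := by rw [Nat.sub_add_cancel hle, hs, hδ]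
    have h2 : (s - δ) ≡ d [MOD c] := Nat.ModEq.add_right_cancel' δ h1
    have h3 : (s - δ) % c = d % c := h2
    rw [h3, Nat.mod_eq_of_lt hd]
  -- at most one element of class e below a + δ
  have hone : ((S.filter (fun s => s % c = e)).filter (fun s => s < a + δ)).card ≤ 1 := by
    rw [Finset.card_le_one]
    intro x hx y hy
    simp only [Finset.mem_filter] at hx hy
    have hxa : a ≤ x := S.min'_le x hx.1.1
    have hya : a ≤ y := S.min'_le y hy.1.1
    have hmod : x ≡ y [MOD c] := hx.1.2.trans hy.1.2.symm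
    rcases le_total x y with h | h
    · have : c ∣ y - x := (Nat.modEq_iff_dvd' h).1 hmod
      rcases Nat.eq_zero_or_pos (y - x) with h0 | h0
      · omega
      · have := Nat.le_of_dvd h0 this
        omega
    · have : c ∣ x - y := (Nat.modEq_iff_dvd' h).1 hmod.symm
      rcases Nat.eq_zero_or_pos (x - y) with h0 | h0
      · omega
      · have := Nat.le_of_dvd h0 this
        omega
  have hrest : ((S.filter (fun s => s % c = e)).filter (fun s => ¬ s < a + δ)).card ≤ (S.filter (fun s => s % c = d)).card := by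
    refine Finset.card_le_card_of_injOn (fun s => s - δ) ?_ ?_
    · intro s hs
      simp only [Finset.coe_filter, Finset.mem_filter, Set.mem_setOf_eq, not_lt] at hs ⊢
      exact ⟨hS a ha s hs.1.1 _ (by omega) (by omega), hshift s hs.1.2 (by omega)⟩
    · intro x hx y hy hxy
      simp only [Finset.coe_filter, Finset.mem_filter, Set.mem_setOf_eq, not_lt] at hx hy hxy
      omega
  have := Finset.card_filter_add_card_filter_not (s := S.filter (fun s => s % c = e)) (fun s => s < a + δ)
  omega

/-- The level colouring. -/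
def levelColour {c : ℕ} (hc : 0 < c) (ℓ : V → ℕ) : V → Fin c := fun v => ⟨ℓ v % c, Nat.mod_lt _ hc⟩

/-- One move raises the potential by at most one. -/
theorem pot_move [Fintype V] {c : ℕ} (hc : 0 < c) {G : SimpleGraph V} {ℓ : V → ℕ}
    (hℓ : ∀ u v, G.Adj u v → ℓ u ≤ ℓ v + 1 ∧ ℓ v ≤ ℓ u + 1) (ω : V → Fin c) (p : V × Fin c) :
    pot G ℓ (levelColour hc ℓ) (move G ω p) ≤ pot G ℓ (levelColour hc ℓ) ω + 1 := by
  classical
  set ω₀ := levelColour hc ℓ with hω₀
  set ω' := move G ω p with hω'
  set H := mono G ω with hH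
  set H' := mono G ω' with hH'
  have hle : H ≤ H' := mono_le_move G ω p
  have hHℓ : ∀ u v, H.Adj u v → ℓ u ≤ ℓ v + 1 ∧ ℓ v ≤ ℓ u + 1 := fun u v h => hℓ u v h.1
  set A : Finset V := Finset.univ.filter (fun v => H.Reachable p.1 v) with hA
  set LA : Finset ℕ := A.image ℓ with hLA
  set D1 : Finset (H.ConnectedComponent × ℕ) :=
    (Finset.univ.filter (fun v => ¬ H.Reachable p.1 v ∧ ω v ≠ ω₀ v)).image (fun v => (H.connectedComponentMk v, ℓ v)) with hD1
  set SA : Finset ℕ := LA.filter (fun s => ¬ s % c = p.2.val) with hSA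
  set SE : Finset ℕ := LA.filter (fun s => ¬ s % c = (ω p.1).val) with hSE
  -- the levels of `A` are convex
  have hconv : ∀ a ∈ LA, ∀ b ∈ LA, ∀ t, a ≤ t → t ≤ b → t ∈ LA := by
    intro a ha b hb t h1 h2
    simp only [hLA, hA, Finset.mem_image, Finset.mem_filter, Finset.mem_univ, true_and] at ha hb ⊢
    obtain ⟨u, hu, rfl⟩ := ha
    obtain ⟨v, hv, rfl⟩ := hb
    obtain ⟨w, hw, e⟩ := level_between hHℓ (hu.symm.trans hv) h1 h2
    exact ⟨w, hu.trans hw, e⟩
  have hcard : SA.card ≤ SE.card + 1 := by
    have b1 := balanced LA hconv p.2.val (ω p.1).val p.2.isLt (ω p.1).isLt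
    have e1 := Finset.card_filter_add_card_filter_not (s := LA) (fun s => s % c = p.2.val)
    have e2 := Finset.card_filter_add_card_filter_not (s := LA) (fun s => s % c = (ω p.1).val)
    have h1 : SA.card = (LA.filter (fun s => ¬ s % c = p.2.val)).card := rfl
    have h2 : SE.card = (LA.filter (fun s => ¬ s % c = (ω p.1).val)).card := rfl
    omega
  -- upper bound for the new potential
  have hup : pot G ℓ ω₀ ω' ≤ D1.card + SA.card := by
    have hsub : bad G ℓ ω₀ ω' ⊆
        D1.image (Prod.map (SimpleGraph.ConnectedComponent.map (SimpleGraph.Hom.ofLE hle)) id) ∪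
          SA.image (fun s => (H'.connectedComponentMk p.1, s)) := by
      intro x hx
      obtain ⟨v, hv, rfl⟩ := mem_bad.1 hx
      by_cases hr : H.Reachable p.1 v
      · refine Finset.mem_union_right _ (Finset.mem_image.2 ⟨ℓ v, ?_, ?_⟩)
        · simp only [hSA, hLA, hA, Finset.mem_filter, Finset.mem_image, Finset.mem_univ, true_and]
          refine ⟨⟨v, hr, rfl⟩, fun h => hv ?_⟩
          have : ω' v = p.2 := by rw [hω']; unfold move; rw [if_pos hr]
          rw [this, hω₀]
          exact Fin.ext h.symm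
        · have : H'.Reachable p.1 v := hr.mono hle
          rw [SimpleGraph.ConnectedComponent.eq.2 this]
      · refine Finset.mem_union_left _ (Finset.mem_image.2 ⟨(H.connectedComponentMk v, ℓ v), ?_, ?_⟩)
        · simp only [hD1, Finset.mem_image, Finset.mem_filter, Finset.mem_univ, true_and]
          refine ⟨v, ⟨hr, ?_⟩, rfl⟩
          have : ω' v = ω v := by rw [hω']; unfold move; rw [if_neg hr]
          rwa [this] at hv
        · rfl
    calc pot G ℓ ω₀ ω' ≤ _ := Finset.card_le_card hsub
      _ ≤ _ := Finset.card_union_le _ _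
      _ ≤ _ := Nat.add_le_add Finset.card_image_le Finset.card_image_le
  -- lower bound for the old potential
  have hlow : D1.card + SE.card ≤ pot G ℓ ω₀ ω := by
    set D2 : Finset (H.ConnectedComponent × ℕ) := SE.image (fun s => (H.connectedComponentMk p.1, s)) with hD2
    have hc2 : D2.card = SE.card := Finset.card_image_of_injective _ (fun a b h => (Prod.mk.inj h).2)
    have hdisj : Disjoint D1 D2 := by
      rw [Finset.disjoint_left]
      intro x h1 h2
      simp only [hD1, hD2, Finset.mem_image, Finset.mem_filter, Finset.mem_univ, true_and] at h1 h2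
      obtain ⟨v, ⟨hv, -⟩, rfl⟩ := h1
      obtain ⟨s, -, hs⟩ := h2
      exact hv (SimpleGraph.ConnectedComponent.eq.1 (Prod.mk.inj hs).1)
    rw [← hc2, ← Finset.card_union_of_disjoint hdisj]
    refine Finset.card_le_card (Finset.union_subset ?_ ?_)
    · intro x hx
      simp only [hD1, Finset.mem_image, Finset.mem_filter, Finset.mem_univ, true_and] at hx
      obtain ⟨v, ⟨-, hv⟩, rfl⟩ := hx
      exact mem_bad.2 ⟨v, hv, rfl⟩
    · intro x hx
      simp only [hD2, hSE, hLA, hA, Finset.mem_image, Finset.mem_filter, Finset.mem_univ, true_and] at hx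
      obtain ⟨s, ⟨⟨v, hv, rfl⟩, hs⟩, rfl⟩ := hx
      refine mem_bad.2 ⟨v, fun h => hs ?_, ?_⟩
      · have h1 : ω p.1 = ω v := mono_eq hv
        rw [h1, h, hω₀]
        rfl
      · rw [SimpleGraph.ConnectedComponent.eq.2 hv]
  omega

theorem pot_play [Fintype V] {c : ℕ} (hc : 0 < c) {G : SimpleGraph V} {ℓ : V → ℕ}
    (hℓ : ∀ u v, G.Adj u v → ℓ u ≤ ℓ v + 1 ∧ ℓ v ≤ ℓ u + 1) (l : List (V × Fin c)) :
    pot G ℓ (levelColour hc ℓ) (play G (levelColour hc ℓ) l) ≤ l.length := by
  classical
  induction l using List.reverseRecOn with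
  | nil =>
    have h : bad G ℓ (levelColour hc ℓ) (play G (levelColour hc ℓ) []) = ∅ := by
      rw [Finset.eq_empty_iff_forall_notMem]
      intro x hx
      obtain ⟨v, hv, -⟩ := mem_bad.1 hx
      exact hv rfl
    simp [pot, h]
  | append_singleton l p ih =>
    rw [play_snoc]
    have := pot_move hc hℓ (play G (levelColour hc ℓ) l) p
    simp only [List.length_append, List.length_cons, List.length_nil]
    omega

/-- The number of levels below `L` not of class `d` mod `c`. -/
theorem card_levels {c : ℕ} (hc : 0 < c) (L d : ℕ) (hd : d < c) :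
    L - L ⌈/⌉ c ≤ ((Finset.range L).filter (fun s => ¬ s % c = d)).card := by
  have e := Finset.card_filter_add_card_filter_not (s := Finset.range L) (fun s => s % c = d)
  rw [Finset.card_range] at e
  have h : ((Finset.range L).filter (fun s => s % c = d)).card ≤ L ⌈/⌉ c := by
    have h1 : ((Finset.range L).filter (fun s => s % c = d)).card = L.count (fun s => s ≡ d [MOD c]) := by
      rw [Nat.count_eq_card_filter_range]
      congr 1
      ext s
      simp only [Finset.mem_filter, Nat.ModEq, Nat.mod_eq_of_lt hd]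
    rw [h1, Nat.count_modEq_card L hc d, Nat.mod_eq_of_lt hd, Nat.ceilDiv_eq_add_pred_div, Nat.le_div_iff_mul_le hc]
    have h2 := Nat.div_add_mod L c
    split_ifs with h3
    · have : (L / c + 1) * c = c * (L / c) + c := by ring
      omega
    · have : (L / c + 0) * c = c * (L / c) := by ring
      omega
  omega

/-- **Level bound.** If a level function with adjacent levels at most one apart takes all values `0, ..., L-1` and `c ≤ L`,
then `M_c ≥ L - ⌈L/c⌉`. -/
theorem M_ge_of_levels [Finite V] {c : ℕ} (hc : 0 < c) (G : SimpleGraph V) (ℓ : V → ℕ)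
    (hℓ : ∀ u v, G.Adj u v → ℓ u ≤ ℓ v + 1 ∧ ℓ v ≤ ℓ u + 1) (L : ℕ) (hL : ∀ s < L, ∃ v, ℓ v = s) (hcL : c ≤ L) :
    L - L ⌈/⌉ c ≤ M c G := by
  classical
  haveI := Fintype.ofFinite V
  haveI : Nonempty (Fin c) := ⟨⟨0, hc⟩⟩
  refine le_M G (levelColour hc ℓ) ?_ _ (le_moves G _ _ ?_)
  · intro d
    obtain ⟨v, hv⟩ := hL d.val (lt_of_lt_of_le d.isLt hcL)
    exact ⟨v, Fin.ext (by simp [levelColour, hv, Nat.mod_eq_of_lt d.isLt])⟩
  · intro d l hl
    refine le_trans ?_ (pot_play hc hℓ l)
    refine (card_levels hc L d.val d.isLt).trans ?_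
    refine le_trans (Finset.card_le_card (t := (bad G ℓ (levelColour hc ℓ) (play G (levelColour hc ℓ) l)).image Prod.snd) ?_)
      Finset.card_image_le
    intro s hs
    simp only [Finset.mem_filter, Finset.mem_range] at hs
    obtain ⟨v, hv⟩ := hL s hs.1
    refine Finset.mem_image.2 ⟨_, mem_bad.2 ⟨v, ?_, rfl⟩, hv⟩
    rw [hl v]
    intro h
    exact hs.2 (by rw [h]; simp [levelColour, hv])

/-! ### many colours -/

/-- A move removes at most one colour. -/
theorem range_move (G : SimpleGraph V) (ω : V → C) (p : V × C) : Set.range ω ⊆ Set.range (move G ω p) ∪ {ω p.1} := by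
  classical
  rintro _ ⟨v, rfl⟩
  by_cases h : (mono G ω).Reachable p.1 v
  · exact Or.inr (mono_eq h).symm
  · refine Or.inl ⟨v, ?_⟩
    unfold move
    rw [if_neg h]

theorem card_range_play [Finite V] (G : SimpleGraph V) (ω : V → C) (l : List (V × C)) :
    (Set.range ω).ncard ≤ (Set.range (play G ω l)).ncard + l.length := by
  induction l using List.reverseRecOn with
  | nil => simp [play]
  | append_singleton l p ih =>
    rw [play_snoc]
    have h1 := Set.ncard_le_ncard (range_move G (play G ω l) p)
      ((Set.finite_range _).union (Set.finite_singleton _))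
    have h2 := Set.ncard_union_le (Set.range (move G (play G ω l) p)) {play G ω l p.1}
    rw [Set.ncard_singleton] at h2
    simp only [List.length_append, List.length_cons, List.length_nil]
    omega

/-- `M_c ≥ c - 1`. -/
theorem M_ge_colours [Finite V] {c : ℕ} (hc : 0 < c) (G : SimpleGraph V) (hV : c ≤ Nat.card V) : c - 1 ≤ M c G := by
  classical
  haveI := Fintype.ofFinite V
  haveI : Nonempty (Fin c) := ⟨⟨0, hc⟩⟩
  obtain ⟨ω, hω⟩ : ∃ ω : V → Fin c, Function.Surjective ω := by
    rw [Nat.card_eq_fintype_card] at hV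
    have e : Fintype.card (Fin c) ≤ Fintype.card V := by simpa using hV
    obtain ⟨f⟩ := Function.Embedding.nonempty_of_card_le e
    exact ⟨Function.invFun f, Function.invFun_surjective f.injective⟩
  refine le_M G ω hω _ (le_moves G _ _ ?_)
  intro d l hl
  have h1 := card_range_play G ω l
  rw [hω.range_eq, Set.ncard_univ, Nat.card_eq_fintype_card, Fintype.card_fin] at h1
  have h2 : (Set.range (play G ω l)).ncard ≤ 1 := by
    have : Set.range (play G ω l) ⊆ {d} := by
      rintro _ ⟨v, rfl⟩
      exact hl v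
    exact (Set.ncard_le_ncard this (Set.finite_singleton _)).trans (by rw [Set.ncard_singleton])
  omega

/-! ### grids -/

/-- **Level bound for grids.** For all `k, n ≥ 1` and every number `1 ≤ c ≤ k n` of colours, some surjective colouring of the `k × n` grid
needs at least `(n+k-1) - ⌈(n+k-1)/c⌉` moves of the free Flood-It game. -/
theorem level_bound (k n c : ℕ) (hk : 1 ≤ k) (hn : 1 ≤ n) (hc : 1 ≤ c) (hcn : c ≤ k * n) :
    (n + k - 1) - (n + k - 1) ⌈/⌉ c ≤ M c (grid k n) := by
  rcases Nat.lt_or_ge (n + k - 1) c with h | h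
  · have h1 : (n + k - 1) ⌈/⌉ c = 1 := by
      rw [Nat.ceilDiv_eq_add_pred_div]
      rw [Nat.div_eq_iff (by omega)]
      omega
    have h2 : c - 1 ≤ M c (grid k n) := M_ge_colours hc _ (by simpa using hcn)
    omega
  · refine M_ge_of_levels hc (grid k n) (fun p => p.1.val + p.2.val) ?_ _ ?_ h
    · intro u v huv
      unfold grid at huv
      rw [SimpleGraph.boxProd_adj, SimpleGraph.pathGraph_adj, SimpleGraph.pathGraph_adj] at huv
      rcases huv with ⟨h1, h2⟩ | ⟨h1, h2⟩
      · rw [h2]; omega
      · rw [h2]; omega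
    · intro s hs
      rcases Nat.lt_or_ge s n with h1 | h1
      · exact ⟨(⟨0, by omega⟩, ⟨s, h1⟩), by simp⟩
      · exact ⟨(⟨s - (n - 1), by omega⟩, ⟨n - 1, by omega⟩), by simp; omega⟩

end Pool.Agent.Lib.Flood
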