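import Pool.Agent.Lib.Flood.Exact
import Pool.Agent.Lib.FloodIt.Basic

/-!
# The results of `Pool.Agent.Lib.Flood` for the definitions of `Pool.Agent.Lib.FloodIt`
-/

namespace Pool.Agent.Lib.Flood

variable {V C : Type*}

theorem play_eq (G : SimpleGraph V) (l : List (V × C)) : ∀ ω : V → C, play G ω l = FloodIt.play G ω l := by
  induction l with
  | nil => intro ω; rfl
  | cons p l ih =>
    intro ω
    rw [play_cons, ih]
    rfl

theorem movesTo_eq (G : SimpleGraph V) (ω : V → C) (d : C) : movesTo G ω d = FloodIt.movesTo G ω d := by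
  unfold movesTo FloodIt.movesTo
  simp only [play_eq]

theorem moves_eq (G : SimpleGraph V) (ω : V → C) : moves G ω = FloodIt.minMoves G ω := by
  unfold moves FloodIt.minMoves
  congr 1
  ext t
  simp only [Set.mem_setOf_eq, Set.mem_range, movesTo_eq]
  exact ⟨fun ⟨d, h⟩ => ⟨d, h.symm⟩, fun ⟨d, h⟩ => ⟨d, h.symm⟩⟩

theorem M_eq (c : ℕ) (G : SimpleGraph V) : M c G = FloodIt.worstMoves G c := by
  unfold M FloodIt.worstMoves
  simp only [moves_eq]

theorem grid_eq (k n : ℕ) : grid k n = FloodIt.grid k n := rfl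

theorem rows_lower' {k n c : ℕ} (hk : k = 2 ∨ k = 3) (hn : 1 ≤ n) (hkc : k ≤ c) (hcn : c ≤ k * n) :
    n - n ⌈/⌉ c + (k - 1) ≤ FloodIt.worstMoves (FloodIt.grid k n) c := by
  rw [← M_eq, ← grid_eq]
  exact rows_lower hk hn hkc hcn

theorem rows_exact' {k n : ℕ} (hk : k = 2 ∨ k = 3) (hn : 1 ≤ n) :
    FloodIt.worstMoves (FloodIt.grid k n) k = n - n ⌈/⌉ k + (k - 1) := by
  rw [← M_eq, ← grid_eq]
  exact rows_exact hk hn

end Pool.Agent.Lib.Flood
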