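import Pool.Agent.Lib.Flood.Three

/-!
# Exact values: `k` colours on grids with `k = 2` or `3` rows
-/

namespace Pool.Agent.Lib.Flood

variable {V C : Type*}

theorem moves_le {G : SimpleGraph V} {ω : V → C} {l : List (V × C)} {d : C} (h : ∀ w, play G ω l w = d) :
    moves G ω ≤ l.length := by
  have h1 : moves G ω ≤ movesTo G ω d := Nat.sInf_le ⟨d, rfl⟩
  have h2 : movesTo G ω d ≤ l.length := Nat.sInf_le ⟨l, rfl, h⟩
  exact h1.trans h2

theorem play_cons (G : SimpleGraph V) (ω : V → C) (p : V × C) (l : List (V × C)) :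
    play G ω (p :: l) = play G (move G ω p) l := rfl

theorem play_append (G : SimpleGraph V) (ω : V → C) (l l' : List (V × C)) :
    play G ω (l ++ l') = play G (play G ω l) l' := by
  simp [play, List.foldl_append]

/-- Recolouring a list of vertices with `d`. -/
theorem play_all (G : SimpleGraph V) (d : C) (l : List V) : ∀ (ω : V → C) (w : V), (ω w = d ∨ w ∈ l) →
    play G ω (l.map (fun v => (v, d))) w = d := by
  classical
  induction l with
  | nil =>
    intro ω w h
    rcases h with h | h
    · simpa [play] using h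
    · simp at h
  | cons a l ih =>
    intro ω w h
    rw [List.map_cons, play_cons]
    refine ih _ w ?_
    rcases h with h | h
    · left
      unfold move
      split_ifs
      · rfl
      · exact h
    · rcases List.mem_cons.1 h with rfl | h
      · left
        unfold move
        rw [if_pos (SimpleGraph.Reachable.refl _)]
      · exact Or.inr h

/-- Playing a list of colours at `v₀` absorbs the neighbours of these colours. -/
theorem play_absorb (G : SimpleGraph V) (v₀ : V) (L : List C) : ∀ (ω : V → C) (w s : V),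
    (mono G ω).Reachable v₀ s → G.Adj s w → (ω w ∈ L ∨ (mono G ω).Reachable v₀ w) →
    (mono G (play G ω (L.map (fun x => (v₀, x))))).Reachable v₀ w := by
  classical
  induction L with
  | nil =>
    intro ω w s _ _ h
    rcases h with h | h
    · simp at h
    · simpa [play] using h
  | cons x L ih =>
    intro ω w s hs hadj h
    rw [List.map_cons, play_cons]
    have hle := mono_le_move G ω (v₀, x)
    have hs' := hs.mono hle
    by_cases hr : (mono G ω).Reachable v₀ w
    · exact ih _ w s hs' hadj (Or.inr (hr.mono hle))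
    · have hw : move G ω (v₀, x) w = ω w := by unfold move; rw [if_neg hr]
      rcases h with h | h
      · rcases List.mem_cons.1 h with h | h
        · refine ih _ w s hs' hadj (Or.inr (hs'.trans (SimpleGraph.Adj.reachable ⟨hadj, ?_⟩)))
          rw [hw, h]
          unfold move
          rw [if_pos hs]
        · exact ih _ w s hs' hadj (Or.inl (by rw [hw]; exact h))
      · exact absurd h hr

theorem play_reach_mono (G : SimpleGraph V) (l : List (V × C)) : ∀ ω : V → C, mono G ω ≤ mono G (play G ω l) := by
  induction l with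
  | nil => intro ω; exact le_of_eq rfl
  | cons p l ih => intro ω; rw [play_cons]; exact (mono_le_move G ω p).trans (ih _)

/-- Grids with at most three rows: the listed upper bound. -/
theorem grid_upper {k n c : ℕ} (hk : k = 2 ∨ k = 3) (hn : 1 ≤ n) (hc : 1 ≤ c) (ω : Fin k × Fin n → Fin c) :
    moves (grid k n) ω ≤ n - n ⌈/⌉ c + (c - 1) := by
  classical
  -- the central row
  obtain ⟨r, hr, hrc⟩ : ∃ r, ∃ _ : r < k, ∀ i < k, i = r ∨ i + 1 = r ∨ r + 1 = i := by
    rcases hk with rfl | rfl
    · exact ⟨0, by omega, fun i hi => by omega⟩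
    · exact ⟨1, by omega, fun i hi => by omega⟩
  let row : Fin n → Fin k × Fin n := fun j => (⟨r, hr⟩, j)
  -- a frequent colour
  obtain ⟨d, hd⟩ : ∃ d : Fin c, n ⌈/⌉ c ≤ (Finset.univ.filter (fun j => ω (row j) = d)).card := by
    by_contra hcon
    push Not at hcon
    have h1 : (Finset.univ : Finset (Fin n)).card = ∑ d : Fin c, (Finset.univ.filter (fun j => ω (row j) = d)).card :=
      Finset.card_eq_sum_card_fiberwise (fun _ _ => Finset.mem_coe.2 (Finset.mem_univ _))
    have h2 : ∑ d : Fin c, (Finset.univ.filter (fun j => ω (row j) = d)).card ≤ ∑ _d : Fin c, (n - 1) / c := by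
      refine Finset.sum_le_sum (fun d _ => ?_)
      have h3 := hcon d
      rw [Nat.ceilDiv_eq_add_pred_div] at h3
      have h4 : (n + c - 1) / c = (n - 1) / c + 1 := by
        rw [show n + c - 1 = n - 1 + c by omega, Nat.add_div_right _ (by omega)]
      omega
    rw [← h1, Finset.card_univ, Fintype.card_fin, Finset.sum_const, Finset.card_univ, Fintype.card_fin, smul_eq_mul] at h2
    have h5 := Nat.mul_div_le (n - 1) c
    omega
  -- the moves
  set B : List (Fin k × Fin n) := ((Finset.univ.filter (fun j => ¬ ω (row j) = d)).image row).toList with hB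
  set L : List (Fin c) := (Finset.univ.erase d).toList with hL
  set v₀ : Fin k × Fin n := row ⟨0, by omega⟩ with hv₀
  set ω₁ := play (grid k n) ω (B.map (fun v => (v, d))) with hω₁
  have hrow : ∀ j, ω₁ (row j) = d := by
    intro j
    refine play_all _ d B ω (row j) ?_
    by_cases h : ω (row j) = d
    · exact Or.inl h
    · right
      rw [hB, Finset.mem_toList]
      exact Finset.mem_image_of_mem _ (by simpa using h)
  have hreach : ∀ m (hm : m < n), (mono (grid k n) ω₁).Reachable v₀ (row ⟨m, hm⟩) := by
    intro m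
    induction m with
    | zero => intro hm; exact SimpleGraph.Reachable.refl _
    | succ m ih =>
      intro hm
      refine (ih (by omega)).trans (SimpleGraph.Adj.reachable ⟨?_, by rw [hrow, hrow]⟩)
      unfold grid
      rw [SimpleGraph.boxProd_adj, SimpleGraph.pathGraph_adj, SimpleGraph.pathGraph_adj]
      exact Or.inr ⟨Or.inl rfl, rfl⟩
  have hall : ∀ w, (mono (grid k n) (play (grid k n) ω₁ (L.map (fun x => (v₀, x))))).Reachable v₀ w := by
    intro w
    obtain ⟨i, j⟩ := w
    rcases hrc i.val i.isLt with h | h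
    · have e : ((i, j) : Fin k × Fin n) = row j := Prod.ext (Fin.ext h) rfl
      rw [e]
      exact (hreach j.val j.isLt).mono (play_reach_mono _ _ _)
    · have hadj : (grid k n).Adj (row j) (i, j) := by
        unfold grid
        rw [SimpleGraph.boxProd_adj, SimpleGraph.pathGraph_adj, SimpleGraph.pathGraph_adj]
        refine Or.inl ⟨?_, rfl⟩
        show r + 1 = i.val ∨ i.val + 1 = r
        omega
      refine play_absorb (grid k n) v₀ L ω₁ (i, j) (row j) (hreach j.val j.isLt) hadj ?_
      by_cases h' : ω₁ (i, j) = d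
      · right
        exact (hreach j.val j.isLt).trans (SimpleGraph.Adj.reachable ⟨hadj, by rw [hrow, h']⟩)
      · left
        rw [hL, Finset.mem_toList]
        exact Finset.mem_erase.2 ⟨h', Finset.mem_univ _⟩
  have hfin : ∀ w, play (grid k n) ω (B.map (fun v => (v, d)) ++ L.map (fun x => (v₀, x))) w =
      play (grid k n) ω₁ (L.map (fun x => (v₀, x))) v₀ := by
    intro w
    rw [play_append]
    exact (mono_eq (hall w)).symm
  refine (moves_le hfin).trans ?_
  have hBl : B.length ≤ n - n ⌈/⌉ c := by
    rw [hB, Finset.length_toList]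
    refine Finset.card_image_le.trans ?_
    have := Finset.card_filter_add_card_filter_not (s := (Finset.univ : Finset (Fin n))) (fun j => ω (row j) = d)
    rw [Finset.card_univ, Fintype.card_fin] at this
    omega
  have hLl : L.length = c - 1 := by
    rw [hL, Finset.length_toList, Finset.card_erase_of_mem (Finset.mem_univ _), Finset.card_univ, Fintype.card_fin]
  rw [List.length_append, List.length_map, List.length_map, hLl]
  omega

theorem grid_connected {k n : ℕ} (hk : 1 ≤ k) (hn : 1 ≤ n) : (grid k n).Connected := by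
  obtain ⟨k, rfl⟩ : ∃ k', k = k' + 1 := ⟨k - 1, by omega⟩
  obtain ⟨n, rfl⟩ : ∃ n', n = n' + 1 := ⟨n - 1, by omega⟩
  exact (SimpleGraph.pathGraph_connected k).boxProd (SimpleGraph.pathGraph_connected n)

theorem exists_surj {V : Type*} [Finite V] {c : ℕ} (hc : 0 < c) (hV : c ≤ Nat.card V) : ∃ ω : V → Fin c, Function.Surjective ω := by
  classical
  haveI := Fintype.ofFinite V
  haveI : Nonempty (Fin c) := ⟨⟨0, hc⟩⟩
  rw [Nat.card_eq_fintype_card] at hV
  have e : Fintype.card (Fin c) ≤ Fintype.card V := by simpa using hV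
  obtain ⟨f⟩ := Function.Embedding.nonempty_of_card_le e
  exact ⟨Function.invFun f, Function.invFun_surjective f.injective⟩

theorem ceil_le {n c : ℕ} (hc : 0 < c) : n ⌈/⌉ c ≤ n := by
  rw [Nat.ceilDiv_eq_add_pred_div]
  refine Nat.lt_succ_iff.1 ((Nat.div_lt_iff_lt_mul hc).2 ?_)
  have h1 : n ≤ n * c := Nat.le_mul_of_pos_right _ hc
  have h2 : n.succ * c = n * c + c := Nat.succ_mul n c
  omega

/-- The lower bound for two and three rows. -/
theorem rows_lower {k n c : ℕ} (hk : k = 2 ∨ k = 3) (hn : 1 ≤ n) (hkc : k ≤ c) (hcn : c ≤ k * n) :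
    n - n ⌈/⌉ c + (k - 1) ≤ M c (grid k n) := by
  have hc2 : 2 ≤ c := by omega
  have hcz : 0 < c := by omega
  rcases Nat.lt_or_ge (n + k - 1) c with h | h
  · have h2 : c - 1 ≤ M c (grid k n) := M_ge_colours hcz _ (by simpa using hcn)
    omega
  · haveI : Nonempty (Fin c) := ⟨⟨0, hcz⟩⟩
    refine le_M (grid k n) (levelColour hcz lev) ?_ _ (le_moves _ _ _ ?_)
    · intro d
      have h1 := d.isLt
      rcases Nat.lt_or_ge d.val n with h2 | h2
      · refine ⟨vt 0 d.val (by omega) h2, Fin.ext ?_⟩
        show lev (vt 0 d.val (by omega) h2) % c = d.val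
        rw [lev_vt, zero_add, Nat.mod_eq_of_lt h1]
      · refine ⟨vt (d.val - (n - 1)) (n - 1) (by omega) (by omega), Fin.ext ?_⟩
        show lev (vt (d.val - (n - 1)) (n - 1) (by omega) (by omega)) % c = d.val
        rw [lev_vt, show d.val - (n - 1) + (n - 1) = d.val by omega, Nat.mod_eq_of_lt h1]
    · intro d l hl
      obtain ⟨t, ht, hp⟩ := piece_univ (grid k n) (grid_connected (by omega) hn) (levelColour hcz lev) (by
        intro u v huv e
        have e1 : lev u % c = lev v % c := congrArg Fin.val e
        rcases lev_adj huv with h3 | h3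
        · rw [h3] at e1
          exact mod_succ_ne hc2 _ e1
        · rw [h3] at e1
          exact mod_succ_ne hc2 _ e1.symm) l d hl
      have hcl : n ⌈/⌉ c ≤ n := ceil_le hcz
      rcases hk with rfl | rfl
      · have := two_bound hc2 hn hp
        omega
      · have := three_bound (by omega) hn hp
        omega

/-- **Exact values.** -/
theorem rows_exact {k n : ℕ} (hk : k = 2 ∨ k = 3) (hn : 1 ≤ n) : M k (grid k n) = n - n ⌈/⌉ k + (k - 1) := by
  have hkn : k ≤ k * n := Nat.le_mul_of_pos_right _ hn
  refine le_antisymm ?_ (rows_lower hk hn le_rfl hkn)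
  refine csSup_le ?_ ?_
  · obtain ⟨ω, hω⟩ := exists_surj (V := Fin k × Fin n) (c := k) (by omega) (by simpa using hkn)
    exact ⟨_, ω, hω, rfl⟩
  · rintro t ⟨ω, _, rfl⟩
    exact grid_upper hk hn (by omega) ω

end Pool.Agent.Lib.Flood
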