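import Pool.Agent.Lib.Flood.Piece

/-!
# The pair bound: two vertices of a piece in the level colouring of a grid
-/

namespace Pool.Agent.Lib.Flood

/-- Number of levels below `t` not of class `d` mod `c`. -/
def nd (c d t : ℕ) : ℕ := Nat.count (fun s => ¬ s % c = d) t

theorem nd_mono (c d : ℕ) {x y : ℕ} (h : x ≤ y) : nd c d x ≤ nd c d y := Nat.count_monotone _ h

theorem nd_succ (c d t : ℕ) : nd c d (t + 1) = nd c d t + if ¬ t % c = d then 1 else 0 := Nat.count_succ _ _

theorem nd_succ_le (c d t : ℕ) : nd c d (t + 1) ≤ nd c d t + 1 := by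
  rw [nd_succ]; split_ifs <;> omega

theorem mod_succ_ne {c : ℕ} (hc : 2 ≤ c) (t : ℕ) : (t + 1) % c ≠ t % c := by
  intro h
  have h1 : t + 1 ≡ t [MOD c] := h
  have h2 : c ∣ (t + 1) - t := (Nat.modEq_iff_dvd' (Nat.le_succ t)).1 h1.symm
  have h3 : c ∣ 1 := by simpa using h2
  have := Nat.le_of_dvd Nat.one_pos h3
  omega

theorem nd_two {c : ℕ} (hc : 2 ≤ c) (d t : ℕ) : nd c d t + 1 ≤ nd c d (t + 2) := by
  have h1 := nd_succ c d t
  have h2 := nd_succ c d (t + 1)
  have h3 := mod_succ_ne hc t
  have h4 : nd c d (t + 2) = nd c d (t + 1 + 1) := rfl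
  rw [h4, h2, h1]
  split_ifs with h5 h6 h6
  all_goals omega

theorem nd_pair {c : ℕ} (hc : 2 ≤ c) (d : ℕ) {x y : ℕ} (h : x ≤ y) :
    nd c d x + nd c d (x + 1) + (y - x) ≤ nd c d y + nd c d (y + 1) := by
  obtain ⟨m, rfl⟩ := Nat.exists_eq_add_of_le h
  clear h
  induction m with
  | zero => simp
  | succ m ih =>
    have := nd_two hc d (x + m)
    have e1 : x + (m + 1) = x + m + 1 := by ring
    have e2 : x + (m + 1) + 1 = x + m + 2 := by ring
    rw [e1] at *
    have e3 : x + m + 1 + 1 = x + m + 2 := by ring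
    rw [e3]
    omega

/-- The bound for two points: levels between them, plus the number of backward steps. -/
def Bd (N : ℕ → ℕ) (t i j i' j' : ℕ) : Prop :=
  (i + j ≤ i' + j' → N (i' + j' + 1) ≤ N (i + j) + t) ∧ (i' + j' ≤ i + j → N (i + j + 1) ≤ N (i' + j') + t) ∧
  ∀ h, i' + h ≤ i → j + h ≤ j' →
    (i + j ≤ i' + j' → N (i' + j' + 1) + h ≤ N (i + j) + t) ∧ (i' + j' ≤ i + j → N (i + j + 1) + h ≤ N (i' + j') + t)

theorem Bd.one {N : ℕ → ℕ} {t i j i' j' : ℕ} (H : Bd N t i j i' j') (h : i + j ≤ i' + j') :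
    N (i' + j' + 1) + (i - i') ≤ N (i + j) + t := by
  rcases le_total i' i with h1 | h1
  · exact (H.2.2 (i - i') (by omega) (by omega)).1 h
  · have := H.1 h
    omega

theorem Bd.two {N : ℕ → ℕ} {t i j i' j' : ℕ} (H : Bd N t i j i' j') (h : i' + j' ≤ i + j) :
    N (i + j + 1) + (j' - j) ≤ N (i' + j') + t := by
  rcases le_total j j' with h1 | h1
  · exact (H.2.2 (j' - j) (by omega) (by omega)).2 h
  · have := H.2.1 h
    omega

/-- Gluing two bounds along an edge of the grid. -/
theorem Bd.join {c : ℕ} (hc : 2 ≤ c) (d : ℕ) {t₁ t₂ iu ju ip jp iq jq iw jw : ℕ}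
    (H1 : Bd (nd c d) t₁ iu ju ip jp) (H2 : Bd (nd c d) t₂ iq jq iw jw)
    (hadj : (ip = iq ∧ (jp + 1 = jq ∨ jq + 1 = jp)) ∨ (jp = jq ∧ (ip + 1 = iq ∨ iq + 1 = ip))) :
    Bd (nd c d) (t₁ + t₂) iu ju iw jw := by
  have A1 : iu + ju ≤ ip + jp → nd c d (ip + jp + 1) + (iu - ip) ≤ nd c d (iu + ju) + t₁ := H1.one
  have A2 : ip + jp ≤ iu + ju → nd c d (iu + ju + 1) + (jp - ju) ≤ nd c d (ip + jp) + t₁ := H1.two
  have B1 : iq + jq ≤ iw + jw → nd c d (iw + jw + 1) + (iq - iw) ≤ nd c d (iq + jq) + t₂ := H2.one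
  have B2 : iw + jw ≤ iq + jq → nd c d (iq + jq + 1) + (jw - jq) ≤ nd c d (iw + jw) + t₂ := H2.two
  clear H1 H2
  obtain ⟨a, ha⟩ : ∃ a, a = iu + ju := ⟨_, rfl⟩
  obtain ⟨p, hp⟩ : ∃ p, p = ip + jp := ⟨_, rfl⟩
  obtain ⟨q, hq⟩ : ∃ q, q = iq + jq := ⟨_, rfl⟩
  obtain ⟨b, hb⟩ : ∃ b, b = iw + jw := ⟨_, rfl⟩
  unfold Bd
  rw [← ha, ← hb]
  rw [← ha, ← hp] at A1 A2
  rw [← hq, ← hb] at B1 B2
  -- the gap between the two middle levels
  rcases le_total a p with hap | hap <;> rcases le_total q b with hqb | hqb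
  · -- up, up
    have A := A1 hap
    have B := B1 hqb
    rcases (by omega : q = p + 1 ∨ p = q + 1) with e | e
    · rw [e] at B hqb
      have ab : ¬ b ≤ a := by omega
      refine ⟨fun _ => by omega, fun h => absurd h ab, fun h h1 h2 => ⟨fun _ => by omega, fun h => absurd h ab⟩⟩
    · have m1 := nd_two hc d q
      rw [e] at A
      have e2 : q + 1 + 1 = q + 2 := rfl
      rw [e2] at A
      rcases le_total a b with hab | hab
      · have hba : b ≤ a → a = b := fun h => le_antisymm hab h
        refine ⟨fun _ => by omega, fun h => ?_, fun h h1 h2 => ⟨fun _ => by omega, fun h3 => ?_⟩⟩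
        · obtain rfl := hba h; omega
        · obtain rfl := hba h3; omega
      · -- `b ≤ a ≤ q + 1`, `q ≤ b`
        rcases (by omega : a = b ∨ a = b + 1) with e3 | e3
        · subst e3
          refine ⟨fun _ => by omega, fun _ => by omega, fun h h1 h2 => ⟨fun _ => by omega, fun _ => by omega⟩⟩
        · have e4 : q = b := by omega
          subst e4
          subst e3
          have e5 : q + 1 + 1 = q + 2 := rfl
          rw [e5]
          have m2 := nd_mono c d (Nat.le_succ q)
          refine ⟨fun h => by omega, fun _ => by omega, fun h h1 h2 => ⟨fun h => by omega, fun _ => by omega⟩⟩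
  · -- up, down
    have A := A1 hap
    have B := B2 hqb
    rcases (by omega : q = p + 1 ∨ p = q + 1) with e | e
    · have M1 := nd_pair hc d hqb
      have M2 := nd_pair hc d (show a ≤ p + 1 by omega)
      rw [e] at M1 B
      have e2 : p + 1 + 1 = p + 2 := rfl
      rw [e2] at M1 M2 B
      have m1 := nd_mono c d (show a ≤ a + 1 by omega)
      have m2 := nd_mono c d (show b ≤ b + 1 by omega)
      refine ⟨fun _ => by omega, fun _ => by omega, fun h h1 h2 => ⟨fun _ => by omega, fun _ => by omega⟩⟩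
    · have M1 := nd_pair hc d (show b ≤ q + 1 by omega)
      have M2 := nd_pair hc d hap
      rw [e] at M2 A
      have e2 : q + 1 + 1 = q + 2 := rfl
      rw [e2] at M1 M2 A
      have m1 := nd_mono c d (show a ≤ a + 1 by omega)
      have m2 := nd_mono c d (show b ≤ b + 1 by omega)
      refine ⟨fun _ => by omega, fun _ => by omega, fun h h1 h2 => ⟨fun _ => by omega, fun _ => by omega⟩⟩
  · -- down, up
    have A := A2 hap
    have B := B1 hqb
    rcases (by omega : q = p + 1 ∨ p = q + 1) with e | e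
    · have M1 := nd_pair hc d hap
      have M2 := nd_pair hc d (show p ≤ b by omega)
      rw [e] at B
      have m1 := nd_mono c d (show a ≤ a + 1 by omega)
      have m2 := nd_mono c d (show b ≤ b + 1 by omega)
      refine ⟨fun _ => by omega, fun _ => by omega, fun h h1 h2 => ⟨fun _ => by omega, fun _ => by omega⟩⟩
    · have M1 := nd_pair hc d (show q ≤ a by omega)
      have M2 := nd_pair hc d hqb
      rw [e] at A
      have m1 := nd_mono c d (show a ≤ a + 1 by omega)
      have m2 := nd_mono c d (show b ≤ b + 1 by omega)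
      refine ⟨fun _ => by omega, fun _ => by omega, fun h h1 h2 => ⟨fun _ => by omega, fun _ => by omega⟩⟩
  · -- down, down
    have A := A2 hap
    have B := B2 hqb
    rcases (by omega : q = p + 1 ∨ p = q + 1) with e | e
    · have m1 := nd_two hc d p
      rw [e] at B
      have e2 : p + 1 + 1 = p + 2 := rfl
      rw [e2] at B
      rcases le_total b a with hab | hab
      · have hba : a ≤ b → a = b := fun h => le_antisymm h hab
        refine ⟨fun h => ?_, fun _ => by omega, fun h h1 h2 => ⟨fun h3 => ?_, fun _ => by omega⟩⟩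
        · obtain rfl := hba h; omega
        · obtain rfl := hba h3; omega
      · rcases (by omega : a = b ∨ b = a + 1) with e3 | e3
        · subst e3
          refine ⟨fun _ => by omega, fun _ => by omega, fun h h1 h2 => ⟨fun _ => by omega, fun _ => by omega⟩⟩
        · have e4 : a = p := by omega
          subst e4
          subst e3
          have e5 : a + 1 + 1 = a + 2 := rfl
          rw [e5]
          refine ⟨fun h => by omega, fun _ => by omega, fun h h1 h2 => ⟨fun h => by omega, fun _ => by omega⟩⟩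
    · rw [e] at A hap
      have ab : ¬ a ≤ b := by omega
      refine ⟨fun h => absurd h ab, fun _ => by omega, fun h h1 h2 => ⟨fun h => absurd h ab, fun _ => by omega⟩⟩

end Pool.Agent.Lib.Flood
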