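import Pool.Agent.Lib.Flood.Basic

/-!
# Pieces: derivation trees of monochromatic components in the free Flood-It game
-/

namespace Pool.Agent.Lib.Flood

variable {V C : Type*}

/-- `Piece G ω₀ K d t`: starting from single vertices with their initial colours, `K` is made monochromatic of colour `d`
with `t` recolourings of connected monochromatic sets inside `K`. -/
inductive Piece (G : SimpleGraph V) (ω₀ : V → C) : Finset V → C → ℕ → Prop
  | single (v : V) : Piece G ω₀ {v} (ω₀ v) 0
  | recolour {K : Finset V} {e d : C} {t : ℕ} (h : Piece G ω₀ K e t) (hne : e ≠ d) : Piece G ω₀ K d (t + 1)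
  | join {K₁ K₂ K : Finset V} {d : C} {t₁ t₂ : ℕ} (h₁ : Piece G ω₀ K₁ d t₁) (h₂ : Piece G ω₀ K₂ d t₂)
      (hK : ∀ z, z ∈ K ↔ z ∈ K₁ ∨ z ∈ K₂) {x y : V} (hx : x ∈ K₁) (hy : y ∈ K₂) (hxy : G.Adj x y) :
      Piece G ω₀ K d (t₁ + t₂)

open Classical in
/-- The monochromatic component of `v`. -/
noncomputable def comp [Fintype V] (G : SimpleGraph V) (ω : V → C) (v : V) : Finset V :=
  Finset.univ.filter (fun w => (mono G ω).Reachable v w)

theorem mem_comp [Fintype V] {G : SimpleGraph V} {ω : V → C} {v w : V} : w ∈ comp G ω v ↔ (mono G ω).Reachable v w := by
  classical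
  simp [comp]

/-- If `S` is closed and misses part of a connected set there is an edge leaving it. -/
theorem exists_exit {H : SimpleGraph V} {P : V → Prop} {u v : V} (h : H.Reachable u v) (hu : P u) (hv : ¬ P v) :
    ∃ x y, H.Adj x y ∧ P x ∧ ¬ P y ∧ H.Reachable u x := by
  obtain ⟨w⟩ := h
  induction w with
  | nil => exact absurd hu hv
  | @cons a b c hab p ih =>
    by_cases hb : P b
    · obtain ⟨x, y, h1, h2, h3, h4⟩ := ih hb hv
      exact ⟨x, y, h1, h2, h3, (SimpleGraph.Adj.reachable hab).trans h4⟩
    · exact ⟨a, b, hab, hu, hb, SimpleGraph.Reachable.refl _⟩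

/-- Every play yields pieces: the numbers of moves at the vertices. -/
theorem exists_pieces [Fintype V] (G : SimpleGraph V) (ω₀ : V → C) (hω₀ : ∀ u v, G.Adj u v → ω₀ u ≠ ω₀ v)
    (l : List (V × C)) : ∃ N : V → ℕ, ∑ v, N v ≤ l.length ∧
      ∀ v, Piece G ω₀ (comp G (play G ω₀ l) v) (play G ω₀ l v) (∑ u ∈ comp G (play G ω₀ l) v, N u) := by
  classical
  induction l using List.reverseRecOn with
  | nil =>
    refine ⟨fun _ => 0, by simp, fun v => ?_⟩
    have h : comp G (play G ω₀ []) v = {v} := by
      ext w
      rw [mem_comp, Finset.mem_singleton]
      constructor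
      · rintro ⟨p⟩
        cases p with
        | nil => rfl
        | cons h p => exact absurd h.2 (hω₀ _ _ h.1)
      · rintro rfl
        exact SimpleGraph.Reachable.refl _
    rw [h]
    simpa [play] using Piece.single (G := G) (ω₀ := ω₀) v
  | append_singleton l p ih =>
    obtain ⟨N, hN, hP⟩ := ih
    rw [play_snoc]
    set ω := play G ω₀ l with hω
    set ω' := move G ω p with hω'
    set x := p.1 with hx
    by_cases hd : p.2 = ω x
    · -- nothing changes
      have e : ω' = ω := by
        funext w
        rw [hω']
        unfold move
        split_ifs with h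
        · rw [hd]; exact mono_eq h
        · rfl
      rw [e]
      exact ⟨N, by simp only [List.length_append, List.length_cons, List.length_nil]; omega, hP⟩
    · have hle : mono G ω ≤ mono G ω' := mono_le_move G ω p
      have hin : ∀ w, (mono G ω).Reachable x w → ω' w = p.2 := fun w h => by rw [hω']; unfold move; rw [if_pos h]
      have hout : ∀ w, ¬ (mono G ω).Reachable x w → ω' w = ω w := fun w h => by rw [hω']; unfold move; rw [if_neg h]
      set N' : V → ℕ := fun u => N u + if u = x then 1 else 0 with hN'
      have hsum : ∀ S : Finset V, ∑ u ∈ S, N' u = (∑ u ∈ S, N u) + if x ∈ S then 1 else 0 := by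
        intro S
        rw [hN', Finset.sum_add_distrib, Finset.sum_ite_eq' S x (fun _ => 1)]
      refine ⟨N', ?_, fun v => ?_⟩
      · rw [hsum]
        simp only [List.length_append, List.length_cons, List.length_nil, Finset.mem_univ, if_true]
        omega
      · by_cases hv : (mono G ω').Reachable v x
        · -- the new component
          have hKx : comp G ω' v = comp G ω' x := by
            ext w
            rw [mem_comp, mem_comp]
            exact ⟨fun h => hv.symm.trans h, fun h => hv.trans h⟩
          have hvd : ω' v = p.2 := (mono_eq hv).trans (hin x (SimpleGraph.Reachable.refl _))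
          rw [hKx, hvd]
          -- grow a closed piece
          have key : ∀ m : ℕ, ∃ S : Finset V, comp G ω x ⊆ S ∧ S ⊆ comp G ω' x ∧ (∀ a ∈ S, ∀ b, (mono G ω).Reachable a b → b ∈ S) ∧
              Piece G ω₀ S p.2 (∑ u ∈ S, N' u) ∧ (S = comp G ω' x ∨ m ≤ S.card) := by
            intro m
            induction m with
            | zero =>
              refine ⟨comp G ω x, subset_rfl, ?_, ?_, ?_, Or.inr (Nat.zero_le _)⟩
              · intro w hw
                rw [mem_comp] at hw ⊢
                exact hw.mono hle
              · intro a ha b hab
                rw [mem_comp] at ha ⊢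
                exact ha.trans hab
              · rw [hsum, if_pos (mem_comp.2 (SimpleGraph.Reachable.refl _))]
                exact Piece.recolour (hP x) (fun h => hd h.symm)
            | succ m ihm =>
              obtain ⟨S, h1, h2, h3, h4, h5⟩ := ihm
              rcases h5 with h5 | h5
              · exact ⟨S, h1, h2, h3, h4, Or.inl h5⟩
              · by_cases hS : S = comp G ω' x
                · exact ⟨S, h1, h2, h3, h4, Or.inl hS⟩
                · obtain ⟨z, hz, hzS⟩ : ∃ z ∈ comp G ω' x, z ∉ S := by
                    by_contra hcon
                    push Not at hcon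
                    exact hS (Finset.Subset.antisymm h2 hcon)
                  have hxS : x ∈ S := h1 (mem_comp.2 (SimpleGraph.Reachable.refl _))
                  obtain ⟨a, b, hab, ha, hb, hxa⟩ := exists_exit (P := fun w => w ∈ S) (mem_comp.1 hz) hxS hzS
                  have hbx : ¬ (mono G ω).Reachable x b := fun h => hb (h1 (mem_comp.2 h))
                  have hbK : b ∈ comp G ω' x := mem_comp.2 (hxa.trans (SimpleGraph.Adj.reachable hab))
                  have hbd : ω b = p.2 := by
                    rw [← hout b hbx, ← hab.2, ← mono_eq hxa]
                    exact hin x (SimpleGraph.Reachable.refl _)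
                  have hdis : Disjoint S (comp G ω b) := by
                    rw [Finset.disjoint_left]
                    intro w hw hw'
                    exact hb (h3 w hw b (mem_comp.1 hw').symm)
                  have hPb : Piece G ω₀ (comp G ω b) p.2 (∑ u ∈ comp G ω b, N' u) := by
                    rw [hsum, if_neg (fun h => hbx (mem_comp.1 h).symm), ← hbd]
                    exact hP b
                  refine ⟨S ∪ comp G ω b, h1.trans Finset.subset_union_left, ?_, ?_, ?_, Or.inr ?_⟩
                  · refine Finset.union_subset h2 (fun w hw => ?_)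
                    exact mem_comp.2 ((mem_comp.1 hbK).trans ((mem_comp.1 hw).mono hle))
                  · intro c hc e hce
                    rcases Finset.mem_union.1 hc with hc | hc
                    · exact Finset.mem_union_left _ (h3 c hc e hce)
                    · exact Finset.mem_union_right _ (mem_comp.2 ((mem_comp.1 hc).trans hce))
                  · rw [Finset.sum_union hdis]
                    exact Piece.join h4 hPb (fun _ => Finset.mem_union) ha (mem_comp.2 (SimpleGraph.Reachable.refl _)) hab.1
                  · rw [Finset.card_union_of_disjoint hdis]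
                    have : 0 < (comp G ω b).card := Finset.card_pos.2 ⟨b, mem_comp.2 (SimpleGraph.Reachable.refl _)⟩
                    omega
          obtain ⟨S, h1, h2, h3, h4, h5⟩ := key ((comp G ω' x).card)
          have hS : S = comp G ω' x := by
            rcases h5 with h5 | h5
            · exact h5
            · exact Finset.eq_of_subset_of_card_le h2 h5
          rw [hS] at h4
          exact h4
        · -- an old component
          have hvx : ∀ w, (mono G ω').Reachable v w → ¬ (mono G ω).Reachable x w := by
            intro w hw hxw
            exact hv (hw.trans (hxw.mono hle).symm)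
          have hcomp : comp G ω' v = comp G ω v := by
            ext w
            rw [mem_comp, mem_comp]
            constructor
            · intro h
              by_contra hcon
              obtain ⟨a, b, hab, ha, hb, hva⟩ := exists_exit (P := fun w => (mono G ω).Reachable v w) h
                (SimpleGraph.Reachable.refl _) hcon
              refine hb (ha.trans (SimpleGraph.Adj.reachable ⟨hab.1, ?_⟩))
              rw [← hout a (hvx a hva), ← hout b (hvx b (hva.trans (SimpleGraph.Adj.reachable hab)))]
              exact hab.2
            · intro h
              exact h.mono hle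
          have hxv : x ∉ comp G ω v := fun h => hv ((mem_comp.1 h).mono hle)
          rw [hcomp, hsum, if_neg hxv, hout v (hvx v (SimpleGraph.Reachable.refl _))]
          exact hP v

/-- If all vertices get colour `d` in a connected graph then `univ` is a piece with at most that many moves. -/
theorem piece_univ [Fintype V] (G : SimpleGraph V) (hG : G.Connected) (ω₀ : V → C) (hω₀ : ∀ u v, G.Adj u v → ω₀ u ≠ ω₀ v)
    (l : List (V × C)) (d : C) (hl : ∀ w, play G ω₀ l w = d) : ∃ t ≤ l.length, Piece G ω₀ Finset.univ d t := by
  classical
  obtain ⟨N, hN, hP⟩ := exists_pieces G ω₀ hω₀ l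
  haveI := hG.nonempty
  obtain ⟨v⟩ : Nonempty V := hG.nonempty
  have hc : comp G (play G ω₀ l) v = Finset.univ := by
    rw [Finset.eq_univ_iff_forall]
    intro w
    rw [mem_comp]
    refine (hG.preconnected v w).mono ?_
    intro a b hab
    exact ⟨hab, by rw [hl a, hl b]⟩
  have := hP v
  rw [hc, hl v] at this
  exact ⟨_, hN, this⟩

end Pool.Agent.Lib.Flood
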