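import Pool.Agent.Lib.Flood.Tight

/-!
# The level colouring of grids with two and three rows
-/

namespace Pool.Agent.Lib.Flood

theorem cl_succ (c d : ℕ) {a b : ℕ} (h : a ≤ b) : cl c d a (b + 1) = cl c d a b + if b % c = d then 1 else 0 := by
  unfold cl
  rw [← Finset.insert_Ico_right_eq_Ico_add_one h, Finset.filter_insert]
  split_ifs with h'
  · rw [Finset.card_insert_of_notMem (by simp)]
  · rfl

theorem cl_add (c d : ℕ) {a b b' : ℕ} (h : a ≤ b) (h' : b ≤ b') : cl c d a b + cl c d b b' = cl c d a b' := by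
  have h1 := nd_cl c d h
  have h2 := nd_cl c d h'
  have h3 := nd_cl c d (h.trans h')
  omega

theorem cl_one (c d a : ℕ) : cl c d a (a + 1) = if a % c = d then 1 else 0 := by
  rw [cl_succ c d le_rfl]
  simp [cl]

theorem cl_le (c d : ℕ) {a b b' : ℕ} (h : a ≤ b) (h' : b ≤ b') : cl c d a b ≤ cl c d a b' := by
  have := cl_add c d h h'
  omega

/-- An interval starting in class `d` has no class more frequent than `d`. -/
theorem cl_start {c : ℕ} {d e : ℕ} (hd : d < c) (he : e < c) (hne : e ≠ d) {a b : ℕ} (h : a ≤ b) (ha : a % c = d) :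
    cl c e a b ≤ cl c d a b := by
  rcases Nat.eq_or_lt_of_le h with rfl | h1
  · simp [cl]
  · have h2 := cl_add c d (Nat.le_succ a) h1
    have h3 := cl_add c e (Nat.le_succ a) h1
    have h4 := cl_one c d a
    have h5 := cl_one c e a
    rw [if_pos ha] at h4
    rw [if_neg (by omega)] at h5
    have h6 := cl_balance d e hd he (a + 1) b
    have e1 : Nat.succ a = a + 1 := rfl
    rw [e1] at h2 h3
    omega

/-- An interval ending in class `d` has no class more frequent than `d`. -/
theorem cl_end {c : ℕ} {d e : ℕ} (hd : d < c) (he : e < c) (hne : e ≠ d) {a b : ℕ} (h : a ≤ b) (hb : b % c = d) :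
    cl c e a (b + 1) ≤ cl c d a (b + 1) := by
  have h1 := cl_succ c d h
  have h2 := cl_succ c e h
  rw [if_pos hb] at h1
  rw [if_neg (by omega)] at h2
  have h3 := cl_balance d e hd he a b
  omega

theorem cl_period_one {c d : ℕ} (hd : d < c) (a : ℕ) : cl c d a (a + c) = 1 := by
  have h1 : cl c d a (a + c) = c.count (fun s => s % c = d) := by
    unfold cl
    exact Nat.filter_Ico_card_eq_of_periodic a c (fun s => s % c = d) (fun s => by simp)
  have h2 : c.count (fun s => s % c = d) = c.count (fun s => s ≡ d [MOD c]) := by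
    congr 1
    funext s
    rw [Nat.ModEq, Nat.mod_eq_of_lt hd]
  rw [h1]
  have h3 := Nat.count_modEq_card c (show 0 < c by omega) d
  have h4 : c / c = 1 := Nat.div_self (by omega)
  rw [Nat.mod_self, if_neg (Nat.not_lt_zero _), h4] at h3
  simpa [Nat.ModEq, Nat.mod_eq_of_lt hd] using h3

theorem cl_period_mul {c d : ℕ} (hd : d < c) (a q : ℕ) : cl c d a (a + c * q) = q := by
  induction q with
  | zero => simp [cl]
  | succ q ih =>
    have h1 := cl_add c d (show a ≤ a + c * q by omega) (show a + c * q ≤ a + c * q + c by omega)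
    have h2 := cl_period_one hd (a + c * q)
    have h3 : a + c * (q + 1) = a + c * q + c := by ring
    rw [h3]
    omega

/-- Whole periods contain every class equally often. -/
theorem cl_period {c : ℕ} {d e : ℕ} (hd : d < c) (he : e < c) {a b : ℕ} (h : a ≤ b) (hab : b % c = a % c) :
    cl c e a b = cl c d a b := by
  have h1 : c ∣ b - a := (Nat.modEq_iff_dvd' h).1 hab.symm
  obtain ⟨q, hq⟩ := h1
  have h2 : b = a + c * q := by omega
  rw [h2, cl_period_mul hd, cl_period_mul he]

/-- `n` consecutive levels contain at most `⌈n/c⌉` of class `d`. -/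
theorem cl_window {c : ℕ} (hc : 0 < c) (d a n : ℕ) : cl c d a (a + n) ≤ n ⌈/⌉ c := by
  rw [← Finset.card_range (n ⌈/⌉ c)]
  unfold cl
  refine Finset.card_le_card_of_injOn (fun s => (s - a) / c) ?_ ?_
  · intro s hs
    simp only [Finset.coe_filter, Finset.mem_Ico, Set.mem_setOf_eq] at hs
    simp only [Finset.coe_range, Set.mem_Iio]
    rw [Nat.ceilDiv_eq_add_pred_div]
    have h1 : (s - a) / c + 1 ≤ (n + c - 1) / c := by
      rw [Nat.le_div_iff_mul_le hc, add_mul, one_mul]
      have := Nat.div_mul_le_self (s - a) c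
      omega
    omega
  · intro x hx y hy hxy
    simp only [Finset.coe_filter, Finset.mem_Ico, Set.mem_setOf_eq] at hx hy hxy
    have h1 := Nat.div_add_mod (x - a) c
    have h2 := Nat.div_add_mod (y - a) c
    rw [hxy] at h1
    have h3 := Nat.mod_lt (x - a) hc
    have h4 := Nat.mod_lt (y - a) hc
    have h5 : x ≡ y [MOD c] := hx.2.trans hy.2.symm
    rcases le_total x y with h | h
    · have h6 := (Nat.modEq_iff_dvd' h).1 h5
      rcases Nat.eq_zero_or_pos (y - x) with h7 | h7
      · omega
      · have := Nat.le_of_dvd h7 h6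
        omega
    · have h6 := (Nat.modEq_iff_dvd' h).1 h5.symm
      rcases Nat.eq_zero_or_pos (x - y) with h7 | h7
      · omega
      · have := Nat.le_of_dvd h7 h6
        omega

/-- The frequency part of the descent, in terms of `cl`. -/
theorem freq {c d e a b : ℕ} (h : a ≤ b) (H : nd c e (b + 1) + nd c d a + 1 ≤ nd c d (b + 1) + nd c e a) :
    cl c d a (b + 1) + 1 ≤ cl c e a (b + 1) := by
  have h1 := nd_cl c d (show a ≤ b + 1 by omega)
  have h2 := nd_cl c e (show a ≤ b + 1 by omega)
  omega

theorem succ_mod_of {c n r : ℕ} (hr : r + 1 < c) (h : n % c = r) : (n + 1) % c = r + 1 := by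
  rw [Nat.add_mod, h, Nat.mod_eq_of_lt (show 1 < c by omega), Nat.mod_eq_of_lt hr]

theorem succ_mod_last {c n : ℕ} (hc : 2 ≤ c) (h : n % c = c - 1) : (n + 1) % c = 0 := by
  rw [Nat.add_mod, h, Nat.mod_eq_of_lt (show 1 < c by omega), Nat.sub_add_cancel (by omega), Nat.mod_self]

end Pool.Agent.Lib.Flood
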