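import Pool.Agent.Lib.Flood.Rows

/-!
# Lower bounds for grids with two and three rows
-/

namespace Pool.Agent.Lib.Flood

/-- The vertex in row `r` and column `j`. -/
def vt {k n : ℕ} (r j : ℕ) (hr : r < k) (hj : j < n) : Fin k × Fin n := (⟨r, hr⟩, ⟨j, hj⟩)

theorem lev_vt {k n r j : ℕ} (hr : r < k) (hj : j < n) : lev (vt r j hr hj) = r + j := rfl

theorem nd_zero (c d : ℕ) : nd c d 0 = 0 := by simp [nd]

/-- `m ≥ 1` backward steps contradict tightness. -/
theorem no_inv {c : ℕ} (hc : 2 ≤ c) {k n : ℕ} {K : Finset (Fin k × Fin n)} {d : Fin c} {t a b : ℕ}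
    (h : GP (by omega : 0 < c) k n K d t) (ht : t + nd c d.val a ≤ nd c d.val (b + 1))
    {r j r' j' : ℕ} {hr : r < k} {hj : j < n} {hr' : r' < k} {hj' : j' < n}
    (hx : vt r j hr hj ∈ K) (hy : vt r' j' hr' hj' ∈ K) (m : ℕ)
    (h1 : r' + m ≤ r) (h2 : j + m ≤ j') (h3 : r + j ≤ r' + j')
    (ha : a ≤ r + j) (hb : r' + j' ≤ b) (hm : (r + j - a) + (b - (r' + j')) < m) : False := by
  have H := piece_inv hc h hx hy m h1 h2 h3
  rw [lev_vt, lev_vt] at H
  -- nd grows by at most one per level
  have g : ∀ x z, nd c d.val (x + z) ≤ nd c d.val x + z := by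
    intro x z
    induction z with
    | zero => simp
    | succ z ih => have := nd_succ_le c d.val (x + z); rw [← add_assoc]; omega
  have g1 := g a (r + j - a)
  have g2 := g (r' + j' + 1) (b - (r' + j'))
  rw [show a + (r + j - a) = r + j by omega] at g1
  rw [show r' + j' + 1 + (b - (r' + j')) = b + 1 by omega] at g2
  omega

theorem span_univ {k n : ℕ} (hk : 1 ≤ k) (hn : 1 ≤ n) : Span (Finset.univ : Finset (Fin k × Fin n)) 0 (k + n - 2) := by
  refine ⟨fun x _ => ?_, ⟨vt 0 0 (by omega) (by omega), Finset.mem_univ _, rfl⟩,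
    ⟨vt (k - 1) (n - 1) (by omega) (by omega), Finset.mem_univ _, ?_⟩⟩
  · have h1 := x.1.isLt
    have h2 := x.2.isLt
    unfold lev
    omega
  · rw [lev_vt]; omega

/-- Two rows: final colour `0` is not tight if `c` divides `n`. -/
theorem two_zero {c : ℕ} (hc : 2 ≤ c) {n : ℕ} (hn : 1 ≤ n) (hnc : n % c = 0) {t : ℕ}
    (h : GP (by omega : 0 < c) 2 n Finset.univ ⟨0, by omega⟩ t) (ht : t ≤ nd c 0 (n + 1)) : False := by
  have m1 : 1 % c = 1 := Nat.mod_eq_of_lt (by omega)
  obtain ⟨A, e, t', a, b, g1, g2, g3, g4, g5, g6, g7, g8, g9⟩ := descent hc h 0 (2 + n - 2) (span_univ (by omega) hn)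
    (by simp only [nd_zero]; have : 2 + n - 2 + 1 = n + 1 := by omega
        rw [this]; omega) 1 ⟨vt 1 0 (by omega) (by omega), Finset.mem_univ _, rfl⟩ (by simp only; omega)
  have e0 : e.val ≠ 0 := fun h => g2 (Fin.ext h)
  have hab := g3.le
  have f := freq hab g5
  have hcz : 0 < c := by omega
  have a1 : a = 1 := by
    by_contra hcon
    have a0 : a = 0 := by omega
    have := cl_start hcz e.isLt e0 (show a ≤ b + 1 by omega) (by rw [a0]; exact Nat.zero_mod c)
    simp only at f
    omega
  have hb : b % c ≠ 0 := by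
    intro hb
    have := cl_end hcz e.isLt e0 hab hb
    simp only at f
    omega
  have hbn : b ≤ n := by
    obtain ⟨x, hx, hxe⟩ := g3.2.2
    have h1 := x.1.isLt
    have h2 := x.2.isLt
    unfold lev at hxe
    omega
  have hbn' : b ≠ n := fun h => hb (by rw [h]; exact hnc)
  have hx : vt 1 0 (by omega) (by omega) ∈ A := g9 (vt 1 0 (by omega) (by omega)) (Finset.mem_univ _)
    (by rw [lev_vt]; simp only [add_zero]; omega) (by rw [lev_vt]; omega) (by rw [lev_vt]; omega)
  have hy : vt 0 b (by omega) (by omega) ∈ A := g9 (vt 0 b (by omega) (by omega)) (Finset.mem_univ _)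
    (by rw [lev_vt]; simpa using hb) (by rw [lev_vt]; omega) (by rw [lev_vt]; omega)
  exact no_inv hc g1 g4 hx hy 1 (by omega) (by omega) (by omega) (by omega) (by omega) (by omega)

/-- Three rows: final colour `0` is not tight if `n ≡ 0` or `n ≡ -1` mod `c`. -/
theorem three_zero {c : ℕ} (hc : 3 ≤ c) {n : ℕ} (hn : 1 ≤ n) (hnc : n % c = c - 1 ∨ n % c = 0) {t : ℕ}
    (h : GP (by omega : 0 < c) 3 n Finset.univ ⟨0, by omega⟩ t) (ht : t ≤ nd c 0 (n + 2)) : False := by
  have hc2 : 2 ≤ c := by omega
  have hcz : 0 < c := by omega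
  have m1 : 1 % c = 1 := Nat.mod_eq_of_lt (by omega)
  have m2 : 2 % c = 2 := Nat.mod_eq_of_lt (by omega)
  obtain ⟨A, e, t', a, b, g1, g2, g3, g4, g5, g6, g7, g8, g9⟩ := descent hc2 h 0 (3 + n - 2) (span_univ (by omega) hn)
    (by simp only [nd_zero]; have : 3 + n - 2 + 1 = n + 2 := by omega
        rw [this]; omega) 1 ⟨vt 1 0 (by omega) (by omega), Finset.mem_univ _, rfl⟩ (by simp only; omega)
  have e0 : e.val ≠ 0 := fun h => g2 (Fin.ext h)
  have hab := g3.le
  have f := freq hab g5
  simp only at f g9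
  have a1 : a = 1 := by
    by_contra hcon
    have a0 : a = 0 := by omega
    have := cl_start hcz e.isLt e0 (show a ≤ b + 1 by omega) (by rw [a0]; exact Nat.zero_mod c)
    omega
  subst a1
  have hb : b % c ≠ 0 := by
    intro hb
    have := cl_end hcz e.isLt e0 hab hb
    omega
  have hbn : b ≤ n + 1 := by
    obtain ⟨x, hx, hxe⟩ := g3.2.2
    have h1 := x.1.isLt
    have h2 := x.2.isLt
    unfold lev at hxe
    omega
  have hA : ∀ r j (hr : r < 3) (hj : j < n), (r + j) % c ≠ 0 → 1 ≤ r + j → r + j ≤ b → vt r j hr hj ∈ A := by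
    intro r j hr hj h1 h2 h3
    exact g9 _ (Finset.mem_univ _) (by rw [lev_vt]; exact h1) (by rw [lev_vt]; exact h2) (by rw [lev_vt]; exact h3)
  have hx : vt 1 0 (by omega) (by omega) ∈ A := hA 1 0 (by omega) (by omega) (by simp only [add_zero]; omega) (by omega) (by omega)
  have hbn' : n ≤ b := by
    by_contra hcon
    have hy : vt 0 b (by omega) (by omega) ∈ A := hA 0 b (by omega) (by omega) (by simpa using hb) (by omega) (by omega)
    exact no_inv hc2 g1 g4 hx hy 1 (by omega) (by omega) (by omega) (by omega) (by omega) (by omega)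
  rcases hnc with hnc | hnc
  · -- `n ≡ -1`
    have hn1 : (n + 1) % c = 0 := succ_mod_last hc2 hnc
    have hbe : b = n := by
      rcases (by omega : b = n ∨ b = n + 1) with h | h
      · exact h
      · exact absurd hn1 (by rw [← h]; exact hb)
    subst hbe
    by_cases he1 : e.val = 1
    · -- final colour 1: look at the last level
      obtain ⟨z, hz, hzl⟩ := g3.2.2
      obtain ⟨D, f', t'', a2, b2, k1, k2, k3, k4, k5, k6, k7, k8, k9⟩ := descent hc2 g1 1 b g3 g4 b ⟨z, hz, hzl⟩ (by omega)
      have fne : f'.val ≠ 1 := fun h => k2 (Fin.ext (by rw [h, he1]))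
      have hab2 := k3.le
      have f2 := freq hab2 k5
      rw [he1] at f2 k9
      have hb2 : b2 = b := by
        obtain ⟨x, hx, hxe⟩ := k3.2.2
        have := (g3.1 x (k6 hx)).2
        omega
      have ha2 : 1 ≤ a2 := by
        obtain ⟨x, hx, hxe⟩ := k3.2.1
        have := (g3.1 x (k6 hx)).1
        omega
      subst hb2
      have n1 : a2 % c ≠ 1 := by
        intro h1
        have := cl_start (show 1 < c by omega) f'.isLt fne (show a2 ≤ b2 + 1 by omega) h1
        omega
      have n0 : a2 % c ≠ 0 := by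
        intro h0
        have := cl_period (show 1 < c by omega) f'.isLt (show a2 ≤ b2 + 1 by omega) (by rw [hn1, h0])
        omega
      have ha22 : 2 ≤ a2 := by
        rcases (by omega : a2 = 1 ∨ 2 ≤ a2) with h | h
        · exact absurd (by rw [h]; exact m1) n1
        · exact h
      have hu : vt 2 (a2 - 2) (by omega) (by omega) ∈ A := hA 2 (a2 - 2) (by omega) (by omega)
        (by rw [show 2 + (a2 - 2) = a2 by omega]; exact n0) (by omega) (by omega)
      have hu2 : vt 2 (a2 - 2) (by omega) (by omega) ∈ D := k9 _ hu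
        (by rw [lev_vt, show 2 + (a2 - 2) = a2 by omega]; exact n1) (by rw [lev_vt]; omega) (by rw [lev_vt]; omega)
      have hw : vt 1 (b2 - 1) (by omega) (by omega) ∈ A := hA 1 (b2 - 1) (by omega) (by omega)
        (by rw [show 1 + (b2 - 1) = b2 by omega]; omega) (by omega) (by omega)
      have hw2 : vt 1 (b2 - 1) (by omega) (by omega) ∈ D := k9 _ hw
        (by rw [lev_vt, show 1 + (b2 - 1) = b2 by omega]; omega) (by rw [lev_vt]; omega) (by rw [lev_vt]; omega)
      exact no_inv hc2 k1 k4 hu2 hw2 1 (by omega) (by omega) (by omega) (by omega) (by omega) (by omega)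
    · -- another final colour: look at level 1
      obtain ⟨D, f', t'', a2, b2, k1, k2, k3, k4, k5, k6, k7, k8, k9⟩ := descent hc2 g1 1 b g3 g4 1 ⟨_, hx, rfl⟩ (by omega)
      have fne : f'.val ≠ e.val := fun h => k2 (Fin.ext h)
      have hab2 := k3.le
      have f2 := freq hab2 k5
      have hb2 : b2 ≤ b := by
        obtain ⟨x, hx, hxe⟩ := k3.2.2
        have := (g3.1 x (k6 hx)).2
        omega
      have ha2 : a2 = 1 := by
        obtain ⟨x, hx, hxe⟩ := k3.2.1
        have := (g3.1 x (k6 hx)).1
        omega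
      subst ha2
      have ne : b2 % c ≠ e.val := by
        intro h1
        have := cl_end e.isLt f'.isLt fne hab2 h1
        omega
      have n0 : b2 % c ≠ 0 := by
        intro h0
        have h1 : (b2 + 1) % c = 1 % c := by rw [succ_mod_of (by omega) h0, m1]
        have := cl_period e.isLt f'.isLt (show 1 ≤ b2 + 1 by omega) h1
        omega
      have nb : b2 ≠ b := by
        intro h1
        subst h1
        have h2 : (b2 + 1 + 1) % c = 1 % c := by rw [succ_mod_of (by omega) hn1, m1]
        have h3 := cl_period e.isLt f'.isLt (show 1 ≤ b2 + 1 + 1 by omega) h2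
        have h4 := cl_succ c e.val (show 1 ≤ b2 + 1 by omega)
        have h5 := cl_succ c f'.val (show 1 ≤ b2 + 1 by omega)
        rw [if_neg (by omega)] at h4
        omega
      have hu2 : vt 1 0 (by omega) (by omega) ∈ D := k9 _ hx (by rw [lev_vt]; simp only [add_zero]; omega)
        (by rw [lev_vt]) (by rw [lev_vt]; omega)
      have hw : vt 0 b2 (by omega) (by omega) ∈ A := hA 0 b2 (by omega) (by omega) (by simpa using n0) (by omega) (by omega)
      have hw2 : vt 0 b2 (by omega) (by omega) ∈ D := k9 _ hw (by rw [lev_vt]; simpa using ne) (by rw [lev_vt]; omega)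
        (by rw [lev_vt]; omega)
      exact no_inv hc2 k1 k4 hu2 hw2 1 (by omega) (by omega) (by omega) (by omega) (by omega) (by omega)
  · -- `n ≡ 0`
    have hn1 : (n + 1) % c = 1 := by rw [succ_mod_of (by omega) hnc]
    have hbe : b = n + 1 := by
      rcases (by omega : b = n ∨ b = n + 1) with h | h
      · exact absurd hnc (by rw [← h]; exact hb)
      · exact h
    subst hbe
    have he1 : e.val = 1 := by
      by_contra he1
      have h1 := cl_succ c e.val (show 1 ≤ n + 1 by omega)
      have h2 := cl_succ c 0 (show 1 ≤ n + 1 by omega)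
      rw [if_neg (by omega)] at h1 h2
      have h3 := cl_period hcz e.isLt (show 1 ≤ n + 1 by omega) (by rw [hn1, m1])
      omega
    have hv : vt 2 0 (by omega) (by omega) ∈ A := hA 2 0 (by omega) (by omega) (by simp only [add_zero]; omega) (by omega) (by omega)
    obtain ⟨D, f', t'', a2, b2, k1, k2, k3, k4, k5, k6, k7, k8, k9⟩ := descent hc2 g1 1 (n + 1) g3 g4 2 ⟨_, hv, rfl⟩ (by omega)
    have fne : f'.val ≠ 1 := fun h => k2 (Fin.ext (by rw [h, he1]))
    have hab2 := k3.le
    have f2 := freq hab2 k5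
    rw [he1] at f2 k9
    have hb2 : b2 ≤ n + 1 := by
      obtain ⟨x, hx, hxe⟩ := k3.2.2
      have := (g3.1 x (k6 hx)).2
      omega
    have ha2 : a2 = 2 := by
      obtain ⟨x, hx, hxe⟩ := k3.2.1
      have := (g3.1 x (k6 hx)).1
      rcases (by omega : a2 = 1 ∨ a2 = 2) with h | h
      · exfalso
        have := cl_start (show 1 < c by omega) f'.isLt fne (show a2 ≤ b2 + 1 by omega) (by rw [h]; exact m1)
        omega
      · exact h
    subst ha2
    have n1 : b2 % c ≠ 1 := by
      intro h1
      have h2 : (b2 + 1) % c = 2 % c := by rw [succ_mod_of (by omega) h1, m2]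
      have := cl_period (show 1 < c by omega) f'.isLt (show 2 ≤ b2 + 1 by omega) h2
      omega
    have hb2n : b2 ≤ n := by
      rcases (by omega : b2 ≤ n ∨ b2 = n + 1) with h | h
      · exact h
      · exact absurd hn1 (by rw [← h]; exact n1)
    have hu2 : vt 2 0 (by omega) (by omega) ∈ D := k9 _ hv (by rw [lev_vt]; simp only [add_zero]; omega)
      (by rw [lev_vt]) (by rw [lev_vt]; omega)
    by_cases h0 : b2 % c = 0
    · -- the level before the last one
      have hcb : c ≤ b2 := by
        have := Nat.div_add_mod b2 c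
        rcases Nat.eq_zero_or_pos (b2 / c) with h | h
        · rw [h] at this; omega
        · have := Nat.mul_le_mul_left c h
          omega
      obtain ⟨r, hr⟩ : ∃ r, b2 = r + 1 := ⟨b2 - 1, by omega⟩
      have hrc : r % c = c - 1 := by
        have h1 := Nat.mod_lt r hcz
        by_contra hcon
        have h2 := succ_mod_of (show r % c + 1 < c by omega) rfl
        rw [← hr, h0] at h2
        omega
      have hw : vt 0 r (by omega) (by omega) ∈ A := hA 0 r (by omega) (by omega) (by simp only [zero_add]; omega) (by omega) (by omega)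
      have hw2 : vt 0 r (by omega) (by omega) ∈ D := k9 _ hw (by rw [lev_vt]; simp only [zero_add]; omega) (by rw [lev_vt]; omega)
        (by rw [lev_vt]; omega)
      exact no_inv hc2 k1 k4 hu2 hw2 2 (by omega) (by omega) (by omega) (by omega) (by omega) (by omega)
    · have hb2n' : b2 ≠ n := fun h => h0 (by rw [h]; exact hnc)
      have hw : vt 0 b2 (by omega) (by omega) ∈ A := hA 0 b2 (by omega) (by omega) (by simpa using h0) (by omega) (by omega)
      have hw2 : vt 0 b2 (by omega) (by omega) ∈ D := k9 _ hw (by rw [lev_vt]; simpa using n1) (by rw [lev_vt]; omega)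
        (by rw [lev_vt]; omega)
      exact no_inv hc2 k1 k4 hu2 hw2 2 (by omega) (by omega) (by omega) (by omega) (by omega) (by omega)

/-- Three rows: final colour `1` is not tight if `c` divides `n`. -/
theorem three_one {c : ℕ} (hc : 3 ≤ c) {n : ℕ} (hn : 1 ≤ n) (hnc : n % c = 0) {t : ℕ}
    (h : GP (by omega : 0 < c) 3 n Finset.univ ⟨1, by omega⟩ t) (ht : t ≤ nd c 1 (n + 2)) : False := by
  have hc2 : 2 ≤ c := by omega
  have hcz : 0 < c := by omega
  have hc1 : 1 < c := by omega
  have m1 : 1 % c = 1 := Nat.mod_eq_of_lt (by omega)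
  have m2 : 2 % c = 2 := Nat.mod_eq_of_lt (by omega)
  have hn1 : (n + 1) % c = 1 := by rw [succ_mod_of (by omega) hnc]
  have hcn : c ≤ n := by
    have := Nat.div_add_mod n c
    rcases Nat.eq_zero_or_pos (n / c) with h | h
    · rw [h] at this; omega
    · have := Nat.mul_le_mul_left c h
      omega
  obtain ⟨A, e, t', a, b, g1, g2, g3, g4, g5, g6, g7, g8, g9⟩ := descent hc2 h 0 (3 + n - 2) (span_univ (by omega) hn)
    (by simp only [nd_zero]; have : 3 + n - 2 + 1 = n + 2 := by omega
        rw [this]; omega) n ⟨vt 1 (n - 1) (by omega) (by omega), Finset.mem_univ _, by rw [lev_vt]; omega⟩ (by simp only; omega)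
  have e1 : e.val ≠ 1 := fun h => g2 (Fin.ext h)
  have hab := g3.le
  have f := freq hab g5
  simp only at f g9
  have hbn : b ≤ n + 1 := by
    obtain ⟨x, hx, hxe⟩ := g3.2.2
    have h1 := x.1.isLt
    have h2 := x.2.isLt
    unfold lev at hxe
    omega
  have hb : b = n := by
    rcases (by omega : b = n ∨ b = n + 1) with h | h
    · exact h
    · exfalso
      have := cl_end hc1 e.isLt e1 hab (by rw [h]; exact hn1)
      omega
  rw [hb] at f g3 g4 g8 g9 hab
  clear hbn hb
  have hA : ∀ r j (hr : r < 3) (hj : j < n), (r + j) % c ≠ 1 → a ≤ r + j → r + j ≤ n → vt r j hr hj ∈ A := by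
    intro r j hr hj h1 h2 h3
    exact g9 _ (Finset.mem_univ _) (by rw [lev_vt]; exact h1) (by rw [lev_vt]; exact h2) (by rw [lev_vt]; exact h3)
  have na1 : a % c ≠ 1 := by
    intro h1
    have := cl_period hc1 e.isLt (show a ≤ n + 1 by omega) (by rw [hn1, h1])
    omega
  have a0 : a = 0 := by
    rcases (by omega : a = 0 ∨ a = 1 ∨ 2 ≤ a) with h | h | h
    · exact h
    · exact absurd (by rw [h]; exact m1) na1
    · exfalso
      have hx : vt 2 (a - 2) (by omega) (by omega) ∈ A := hA 2 (a - 2) (by omega) (by omega)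
        (by rw [show 2 + (a - 2) = a by omega]; exact na1) (by omega) (by omega)
      have hy : vt 1 (n - 1) (by omega) (by omega) ∈ A := hA 1 (n - 1) (by omega) (by omega)
        (by rw [show 1 + (n - 1) = n by omega]; omega) (by omega) (by omega)
      exact no_inv hc2 g1 g4 hx hy 1 (by omega) (by omega) (by omega) (by omega) (by omega) (by omega)
  subst a0
  have e0 : e.val = 0 := by
    by_contra he
    have h1 := cl_succ c e.val (show 0 ≤ n by omega)
    have h2 := cl_succ c 1 (show 0 ≤ n by omega)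
    rw [if_neg (by omega)] at h1 h2
    have h3 := cl_period hc1 e.isLt (show 0 ≤ n by omega) (by rw [hnc, Nat.zero_mod])
    omega
  -- the level `n - 1`
  obtain ⟨m, hm⟩ : ∃ m, n = m + 1 := ⟨n - 1, by omega⟩
  have hmc : m % c = c - 1 := by
    have h1 := Nat.mod_lt m hcz
    by_contra hcon
    have h2 := succ_mod_of (show m % c + 1 < c by omega) rfl
    rw [← hm, hnc] at h2
    omega
  have hy : vt 0 m (by omega) (by omega) ∈ A := hA 0 m (by omega) (by omega) (by simp only [zero_add]; omega) (by omega) (by omega)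
  obtain ⟨D, f', t'', a2, b2, k1, k2, k3, k4, k5, k6, k7, k8, k9⟩ := descent hc2 g1 0 n g3 g4 m ⟨_, hy, by rw [lev_vt]; omega⟩ (by omega)
  have fne : f'.val ≠ 0 := fun h => k2 (Fin.ext (by rw [h, e0]))
  have hab2 := k3.le
  have f2 := freq hab2 k5
  rw [e0] at f2 k9
  have hb2 : b2 ≤ n := by
    obtain ⟨x, hx, hxe⟩ := k3.2.2
    have := (g3.1 x (k6 hx)).2
    omega
  have hb2m : b2 = m := by
    rcases (by omega : b2 = m ∨ b2 = n) with h | h
    · exact h
    · exfalso
      have := cl_end hcz f'.isLt fne hab2 (by rw [h]; exact hnc)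
      omega
  rw [hb2m] at f2 k3 k4 k8 k9 hab2
  clear hb2 hb2m
  have hy2 : vt 0 m (by omega) (by omega) ∈ D := k9 _ hy (by rw [lev_vt]; simp only [zero_add]; omega) (by rw [lev_vt]; omega)
    (by rw [lev_vt]; omega)
  have n0 : a2 % c ≠ 0 := by
    intro h0
    have := cl_period hcz f'.isLt (show a2 ≤ m + 1 by omega) (by rw [← hm, hnc, h0])
    omega
  by_cases n1 : a2 % c = 1
  · have ha2m : a2 ≠ m := fun h => by rw [h] at n1; omega
    have hr : (a2 + 1) % c = 2 := succ_mod_of (by omega) n1
    have ha21 : 1 ≤ a2 := by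
      rcases Nat.eq_zero_or_pos a2 with h | h
      · rw [h, Nat.zero_mod] at n1; omega
      · exact h
    have hx : vt 2 (a2 - 1) (by omega) (by omega) ∈ A := hA 2 (a2 - 1) (by omega) (by omega)
      (by rw [show 2 + (a2 - 1) = a2 + 1 by omega]; omega) (by omega) (by omega)
    have hx2 : vt 2 (a2 - 1) (by omega) (by omega) ∈ D := k9 _ hx
      (by rw [lev_vt, show 2 + (a2 - 1) = a2 + 1 by omega]; omega) (by rw [lev_vt]; omega) (by rw [lev_vt]; omega)
    exact no_inv hc2 k1 k4 hx2 hy2 2 (by omega) (by omega) (by omega) (by omega) (by omega) (by omega)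
  · have ha22 : 2 ≤ a2 := by
      rcases (by omega : a2 = 0 ∨ a2 = 1 ∨ 2 ≤ a2) with h | h | h
      · exact absurd (by rw [h]; exact Nat.zero_mod c) n0
      · exact absurd (by rw [h]; exact m1) n1
      · exact h
    have hx : vt 2 (a2 - 2) (by omega) (by omega) ∈ A := hA 2 (a2 - 2) (by omega) (by omega)
      (by rw [show 2 + (a2 - 2) = a2 by omega]; exact n1) (by omega) (by omega)
    have hx2 : vt 2 (a2 - 2) (by omega) (by omega) ∈ D := k9 _ hx
      (by rw [lev_vt, show 2 + (a2 - 2) = a2 by omega]; exact n0) (by rw [lev_vt]; omega) (by rw [lev_vt]; omega)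
    exact no_inv hc2 k1 k4 hx2 hy2 1 (by omega) (by omega) (by omega) (by omega) (by omega) (by omega)

/-- Three rows: `n + 2 - ⌈n/c⌉` recolourings are needed. -/
theorem three_bound {c : ℕ} (hc : 3 ≤ c) {n : ℕ} (hn : 1 ≤ n) {d : Fin c} {t : ℕ}
    (h : GP (by omega : 0 < c) 3 n Finset.univ d t) : n + 2 ≤ t + n ⌈/⌉ c := by
  have hc2 : 2 ≤ c := by omega
  have hcz : 0 < c := by omega
  have hc1 : 1 < c := by omega
  have L := piece_level hc2 h (span_univ (by omega) hn)
  rw [nd_zero, show 3 + n - 2 + 1 = n + 2 by omega] at L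
  have N := nd_cl c d.val (Nat.zero_le (n + 2))
  rw [nd_zero] at N
  have w0 := cl_window hcz d.val 0 n
  have w1 := cl_window hcz d.val 1 n
  have w2 := cl_window hcz d.val 2 n
  rw [zero_add] at w0
  have s1 := cl_succ c d.val (Nat.zero_le n)
  have s2 := cl_succ c d.val (Nat.zero_le (n + 1))
  have s3 := cl_add c d.val (show 0 ≤ 1 by omega) (show 1 ≤ 1 + n by omega)
  have s4 := cl_add c d.val (show 0 ≤ 2 by omega) (show 2 ≤ 2 + n by omega)
  have s5 := cl_one c d.val 0
  have s6 := cl_succ c d.val (show 0 ≤ 1 by omega)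
  have s7 := mod_succ_ne hc2 n
  rw [show 0 + 1 = 1 by rfl] at s5
  rw [Nat.zero_mod] at s5
  rw [show 1 + n = n + 1 by omega] at s3 w1
  rw [show 2 + n = n + 2 by omega] at s4 w2
  rw [show 1 + 1 = 2 by rfl, Nat.mod_eq_of_lt (show 1 < c by omega)] at s6
  rw [show n + 1 + 1 = n + 2 by rfl] at s2
  rw [show n + 2 - 0 = n + 2 by omega] at N
  by_contra hcon
  -- the colour class `d` has more than `⌈n/c⌉` levels
  have hd01 : d.val = 0 ∨ d.val = 1 := by
    by_contra hd
    rw [if_neg (by omega)] at s5 s6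
    omega
  have hlast : n % c = d.val ∨ (n + 1) % c = d.val := by
    by_contra hd
    rw [if_neg (by omega)] at s1 s2
    omega
  have htight : t ≤ nd c d.val (n + 2) := by
    have : cl c d.val 0 (n + 2) ≤ n ⌈/⌉ c + 1 := by
      rw [s2, s1]
      split_ifs with q1 q2 q2 <;> omega
    omega
  rcases hd01 with hd | hd
  · have hd0 : d = ⟨0, hcz⟩ := Fin.ext hd
    subst hd0
    simp only at hlast htight
    refine three_zero hc hn ?_ h htight
    rcases hlast with h1 | h1
    · exact Or.inr h1
    · left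
      have h2 := Nat.mod_lt n hcz
      by_contra hcon2
      have h3 := succ_mod_of (show n % c + 1 < c by omega) rfl
      omega
  · rw [hd] at htight s1 s2 s3 s5 w0 w1 w2 N L
    rw [if_neg (by omega)] at s5
    have h1 : (n + 1) % c = 1 := by
      by_contra hcon2
      rw [if_neg hcon2] at s2
      omega
    have hnc : n % c = 0 := by
      by_contra hcon2
      have h2 := Nat.mod_lt n hcz
      rcases (by omega : n % c + 1 < c ∨ n % c = c - 1) with h3 | h3
      · have h4 := succ_mod_of h3 rfl
        omega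
      · have h4 := succ_mod_last hc2 h3
        omega
    have hd1 : d = ⟨1, hc1⟩ := Fin.ext hd
    subst hd1
    exact three_one hc hn hnc h htight

/-- Two rows: `n + 1 - ⌈n/c⌉` recolourings are needed. -/
theorem two_bound {c : ℕ} (hc : 2 ≤ c) {n : ℕ} (hn : 1 ≤ n) {d : Fin c} {t : ℕ}
    (h : GP (by omega : 0 < c) 2 n Finset.univ d t) : n + 1 ≤ t + n ⌈/⌉ c := by
  have hcz : 0 < c := by omega
  have L := piece_level hc h (span_univ (by omega) hn)
  rw [nd_zero, show 2 + n - 2 + 1 = n + 1 by omega] at L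
  have N := nd_cl c d.val (Nat.zero_le (n + 1))
  rw [nd_zero] at N
  have w0 := cl_window hcz d.val 0 n
  have w1 := cl_window hcz d.val 1 n
  rw [zero_add] at w0
  have s1 := cl_succ c d.val (Nat.zero_le n)
  have s3 := cl_add c d.val (show 0 ≤ 1 by omega) (show 1 ≤ 1 + n by omega)
  have s5 := cl_one c d.val 0
  rw [show 0 + 1 = 1 by rfl] at s5
  rw [Nat.zero_mod] at s5
  rw [show 1 + n = n + 1 by omega] at s3 w1
  rw [show n + 1 - 0 = n + 1 by omega] at N
  by_contra hcon
  have hd : d.val = 0 := by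
    by_contra hd
    rw [if_neg (by omega)] at s5
    omega
  have hlast : n % c = d.val := by
    by_contra hd
    rw [if_neg hd] at s1
    omega
  have htight : t ≤ nd c d.val (n + 1) := by
    have : cl c d.val 0 (n + 1) ≤ n ⌈/⌉ c + 1 := by
      rw [s1]
      split_ifs <;> omega
    omega
  have hd0 : d = ⟨0, hcz⟩ := Fin.ext hd
  subst hd0
  exact two_zero hc hn hlast h htight

end Pool.Agent.Lib.Flood
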