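import Pool.Agent.Lib.Flood.Pairs

/-!
# Tight pieces of the level colouring of a grid
-/

namespace Pool.Agent.Lib.Flood

/-- Number of levels in `[a, b)` of class `d`. -/
def cl (c d a b : ℕ) : ℕ := ((Finset.Ico a b).filter (fun s => s % c = d)).card

theorem nd_cl (c d : ℕ) {a b : ℕ} (h : a ≤ b) : nd c d b + cl c d a b = nd c d a + (b - a) := by
  obtain ⟨m, rfl⟩ := Nat.exists_eq_add_of_le h
  clear h
  induction m with
  | zero => simp [cl]
  | succ m ih =>
    have h1 := nd_succ c d (a + m)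
    have h2 : cl c d a (a + m + 1) = cl c d a (a + m) + if (a + m) % c = d then 1 else 0 := by
      unfold cl
      rw [← Finset.insert_Ico_right_eq_Ico_add_one (by omega), Finset.filter_insert]
      split_ifs with h
      · rw [Finset.card_insert_of_notMem (by simp)]
      · rfl
    rw [← add_assoc, h1, h2]
    split_ifs with h3 h4 h4
    all_goals omega

theorem cl_balance {c : ℕ} (d e : ℕ) (hd : d < c) (he : e < c) (a b : ℕ) : cl c e a b ≤ cl c d a b + 1 :=
  balanced (Finset.Ico a b) (by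
    intro x hx y hy t h1 h2
    rw [Finset.mem_Ico] at *
    omega) d e hd he

theorem nd_balance {c : ℕ} (d e : ℕ) (hd : d < c) (he : e < c) {a b : ℕ} (h : a ≤ b) :
    nd c d b + nd c e a ≤ nd c e b + nd c d a + 1 := by
  have h1 := nd_cl c d h
  have h2 := nd_cl c e h
  have h3 := cl_balance e d he hd a b
  have h4 := cl_balance d e hd he a b
  omega

theorem Bd.mono_t {N : ℕ → ℕ} {t t' i j i' j' : ℕ} (H : Bd N t i j i' j') (h : t ≤ t') : Bd N t' i j i' j' := by
  refine ⟨fun h1 => (H.1 h1).trans (by omega), fun h1 => (H.2.1 h1).trans (by omega), fun m h1 h2 => ⟨fun h3 => ?_, fun h3 => ?_⟩⟩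
  · exact ((H.2.2 m h1 h2).1 h3).trans (by omega)
  · exact ((H.2.2 m h1 h2).2 h3).trans (by omega)

/-- The level of a vertex. -/
def lev {k n : ℕ} (p : Fin k × Fin n) : ℕ := p.1.val + p.2.val

theorem grid_adj {k n : ℕ} {p q : Fin k × Fin n} (h : (grid k n).Adj p q) :
    (p.1.val = q.1.val ∧ (p.2.val + 1 = q.2.val ∨ q.2.val + 1 = p.2.val)) ∨
      (p.2.val = q.2.val ∧ (p.1.val + 1 = q.1.val ∨ q.1.val + 1 = p.1.val)) := by
  unfold grid at h
  rw [SimpleGraph.boxProd_adj, SimpleGraph.pathGraph_adj, SimpleGraph.pathGraph_adj] at h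
  rcases h with ⟨h1, h2⟩ | ⟨h1, h2⟩
  · exact Or.inr ⟨by rw [h2], h1⟩
  · exact Or.inl ⟨by rw [h2], h1⟩

/-- A piece of the level colouring of the grid. -/
abbrev GP {c : ℕ} (hc : 0 < c) (k n : ℕ) := Piece (grid k n) (levelColour hc (lev (k := k) (n := n)))

/-- The pair bound for pieces. -/
theorem piece_bd {c : ℕ} (hc : 2 ≤ c) {k n : ℕ} {K : Finset (Fin k × Fin n)} {d : Fin c} {t : ℕ}
    (h : GP (by omega : 0 < c) k n K d t) : ∀ x ∈ K, ∀ y ∈ K, Bd (nd c d.val) t x.1.val x.2.val y.1.val y.2.val := by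
  induction h with
  | single v =>
    intro x hx y hy
    rw [Finset.mem_singleton] at hx hy
    rw [hx, hy]
    have h1 := nd_succ c ((levelColour (by omega : 0 < c) lev v).val) (v.1.val + v.2.val)
    have h2 : (levelColour (by omega : 0 < c) lev v).val = (v.1.val + v.2.val) % c := rfl
    rw [h2] at h1 ⊢
    simp only [not_true_eq_false, if_false] at h1
    refine ⟨fun _ => by omega, fun _ => by omega, fun h h3 h4 => ⟨fun _ => by omega, fun _ => by omega⟩⟩
  | @recolour K e d t h hne ih =>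
    intro x hx y hy
    have H := ih x hx y hy
    refine ⟨fun h1 => ?_, fun h1 => ?_, fun m h1 h2 => ⟨fun h3 => ?_, fun h3 => ?_⟩⟩
    · have := H.1 h1
      have b := nd_balance d.val e.val d.isLt e.isLt (show x.1.val + x.2.val ≤ y.1.val + y.2.val + 1 by omega)
      omega
    · have := H.2.1 h1
      have b := nd_balance d.val e.val d.isLt e.isLt (show y.1.val + y.2.val ≤ x.1.val + x.2.val + 1 by omega)
      omega
    · have := (H.2.2 m h1 h2).1 h3
      have b := nd_balance d.val e.val d.isLt e.isLt (show x.1.val + x.2.val ≤ y.1.val + y.2.val + 1 by omega)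
      omega
    · have := (H.2.2 m h1 h2).2 h3
      have b := nd_balance d.val e.val d.isLt e.isLt (show y.1.val + y.2.val ≤ x.1.val + x.2.val + 1 by omega)
      omega
  | @join K₁ K₂ K d t₁ t₂ h₁ h₂ hK x y hx hy hxy ih₁ ih₂ =>
    intro u hu w hw
    rcases (hK _).1 hu with hu | hu <;> rcases (hK _).1 hw with hw | hw
    · exact (ih₁ u hu w hw).mono_t (by omega)
    · exact Bd.join hc d.val (ih₁ u hu x hx) (ih₂ y hy w hw) (grid_adj hxy)
    · rw [add_comm]
      exact Bd.join hc d.val (ih₂ u hu y hy) (ih₁ x hx w hw) (grid_adj hxy.symm)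
    · exact (ih₂ u hu w hw).mono_t (by omega)

theorem lev_adj {k n : ℕ} {p q : Fin k × Fin n} (h : (grid k n).Adj p q) : lev p = lev q + 1 ∨ lev q = lev p + 1 := by
  have := grid_adj h
  unfold lev
  omega

/-- The levels of a piece are an interval `[a, b]`. -/
def Span {k n : ℕ} (K : Finset (Fin k × Fin n)) (a b : ℕ) : Prop :=
  (∀ x ∈ K, a ≤ lev x ∧ lev x ≤ b) ∧ (∃ x ∈ K, lev x = a) ∧ ∃ x ∈ K, lev x = b

theorem piece_span {c : ℕ} {hc : 0 < c} {k n : ℕ} {K : Finset (Fin k × Fin n)} {d : Fin c} {t : ℕ}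
    (h : GP hc k n K d t) : ∃ a b, Span K a b := by
  induction h with
  | single v => exact ⟨lev v, lev v, by simp [Span]⟩
  | recolour h hne ih => exact ih
  | @join K₁ K₂ K d t₁ t₂ h₁ h₂ hK x y hx hy hxy ih₁ ih₂ =>
    obtain ⟨a₁, b₁, s1, ⟨x1, hx1, e1⟩, ⟨y1, hy1, f1⟩⟩ := ih₁
    obtain ⟨a₂, b₂, s2, ⟨x2, hx2, e2⟩, ⟨y2, hy2, f2⟩⟩ := ih₂
    refine ⟨min a₁ a₂, max b₁ b₂, ?_, ?_, ?_⟩
    · intro z hz
      rcases (hK _).1 hz with hz | hz
      · have := s1 z hz; omega
      · have := s2 z hz; omega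
    · rcases le_total a₁ a₂ with h | h
      · exact ⟨x1, (hK _).2 (Or.inl hx1), by omega⟩
      · exact ⟨x2, (hK _).2 (Or.inr hx2), by omega⟩
    · rcases le_total b₁ b₂ with h | h
      · exact ⟨y2, (hK _).2 (Or.inr hy2), by omega⟩
      · exact ⟨y1, (hK _).2 (Or.inl hy1), by omega⟩

theorem Span.unique {k n : ℕ} {K : Finset (Fin k × Fin n)} {a b a' b' : ℕ} (h : Span K a b) (h' : Span K a' b') : a = a' ∧ b = b' := by
  obtain ⟨s1, ⟨x1, hx1, e1⟩, ⟨y1, hy1, f1⟩⟩ := h
  obtain ⟨s2, ⟨x2, hx2, e2⟩, ⟨y2, hy2, f2⟩⟩ := h'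
  have A := s1 x2 hx2
  have B := s1 y2 hy2
  have A' := s2 x1 hx1
  have B' := s2 y1 hy1
  omega

theorem Span.le {k n : ℕ} {K : Finset (Fin k × Fin n)} {a b : ℕ} (h : Span K a b) : a ≤ b := by
  obtain ⟨s1, ⟨x1, hx1, e1⟩, -⟩ := h
  have := s1 x1 hx1
  omega

/-- The level bound for a piece. -/
theorem piece_level {c : ℕ} (hc : 2 ≤ c) {k n : ℕ} {K : Finset (Fin k × Fin n)} {d : Fin c} {t a b : ℕ}
    (h : GP (by omega : 0 < c) k n K d t) (hs : Span K a b) : nd c d.val (b + 1) ≤ nd c d.val a + t := by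
  obtain ⟨s1, ⟨x, hx, e⟩, ⟨y, hy, f⟩⟩ := hs
  have H := (piece_bd hc h x hx y hy).1
  have := s1 x hx
  unfold lev at *
  rw [e, f] at H
  exact H (by omega)

/-- The pair bound with backward steps for a piece. -/
theorem piece_inv {c : ℕ} (hc : 2 ≤ c) {k n : ℕ} {K : Finset (Fin k × Fin n)} {d : Fin c} {t : ℕ}
    (h : GP (by omega : 0 < c) k n K d t) {x y : Fin k × Fin n} (hx : x ∈ K) (hy : y ∈ K) (m : ℕ)
    (h1 : y.1.val + m ≤ x.1.val) (h2 : x.2.val + m ≤ y.2.val) (h3 : lev x ≤ lev y) :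
    nd c d.val (lev y + 1) + m ≤ nd c d.val (lev x) + t :=
  ((piece_bd hc h x hx y hy).2.2 m h1 h2).1 h3

/-- **Descent.** In a tight piece with final colour `d` every level not of class `d` lies in a tight subpiece with another
final colour `e`, which is more frequent than `d` in its interval and contains all vertices of the piece of levels in its
interval not of class `d`. -/
theorem descent {c : ℕ} (hc : 2 ≤ c) {k n : ℕ} {K : Finset (Fin k × Fin n)} {d : Fin c} {t : ℕ}
    (h : GP (by omega : 0 < c) k n K d t) : ∀ a b, Span K a b → t + nd c d.val a ≤ nd c d.val (b + 1) →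
      ∀ s, (∃ x ∈ K, lev x = s) → s % c ≠ d.val →
      ∃ (A : Finset (Fin k × Fin n)) (e : Fin c) (t' a' b' : ℕ), GP (by omega : 0 < c) k n A e t' ∧ e ≠ d ∧ Span A a' b' ∧
        t' + nd c e.val a' ≤ nd c e.val (b' + 1) ∧
        nd c e.val (b' + 1) + nd c d.val a' + 1 ≤ nd c d.val (b' + 1) + nd c e.val a' ∧
        A ⊆ K ∧ a' ≤ s ∧ s ≤ b' ∧ ∀ v ∈ K, lev v % c ≠ d.val → a' ≤ lev v → lev v ≤ b' → v ∈ A := by
  induction h with
  | single v =>
    rintro a b - - s ⟨x, hx, rfl⟩ hs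
    rw [Finset.mem_singleton] at hx
    subst hx
    exact absurd rfl hs
  | @recolour K e d t h hne ih =>
    rintro a b hab ht s ⟨x, hx, rfl⟩ hs
    have h1 := piece_level hc h hab
    have h2 := nd_balance d.val e.val d.isLt e.isLt (show a ≤ b + 1 by have := hab.le; omega)
    have h3 := hab.1 x hx
    exact ⟨K, e, t, a, b, h, hne, hab, by omega, by omega, subset_rfl, h3.1, h3.2, fun v hv _ _ _ => hv⟩
  | @join K₁ K₂ K d t₁ t₂ h₁ h₂ hK x y hx hy hxy ih₁ ih₂ =>
    rintro a b hab ht s ⟨z, hz, rfl⟩ hs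
    obtain ⟨a₁, b₁, s1⟩ := piece_span h₁
    obtain ⟨a₂, b₂, s2⟩ := piece_span h₂
    have l1 := piece_level hc h₁ s1
    have l2 := piece_level hc h₂ s2
    have hl := lev_adj hxy
    have hx1 := s1.1 x hx
    have hy2 := s2.1 y hy
    have e1 : a = min a₁ a₂ ∧ b = max b₁ b₂ := by
      refine hab.unique ⟨?_, ?_, ?_⟩
      · intro z hz
        rcases (hK _).1 hz with hz | hz
        · have := s1.1 z hz; omega
        · have := s2.1 z hz; omega
      · obtain ⟨x1, hx1, e1⟩ := s1.2.1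
        obtain ⟨x2, hx2, e2⟩ := s2.2.1
        rcases le_total a₁ a₂ with h | h
        · exact ⟨x1, (hK _).2 (Or.inl hx1), by omega⟩
        · exact ⟨x2, (hK _).2 (Or.inr hx2), by omega⟩
      · obtain ⟨x1, hx1, e1⟩ := s1.2.2
        obtain ⟨x2, hx2, e2⟩ := s2.2.2
        rcases le_total b₁ b₂ with h | h
        · exact ⟨x2, (hK _).2 (Or.inr hx2), by omega⟩
        · exact ⟨x1, (hK _).2 (Or.inl hx1), by omega⟩
    have m1 : nd c d.val a₁ + nd c d.val a₂ = nd c d.val (min a₁ a₂) + nd c d.val (max a₁ a₂) := by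
      rcases le_total a₁ a₂ with h | h
      · rw [min_eq_left h, max_eq_right h]
      · rw [min_eq_right h, max_eq_left h, add_comm]
    have m2 : nd c d.val (b₁ + 1) + nd c d.val (b₂ + 1) = nd c d.val (min b₁ b₂ + 1) + nd c d.val (max b₁ b₂ + 1) := by
      rcases le_total b₁ b₂ with h | h
      · rw [min_eq_left h, max_eq_right h]
      · rw [min_eq_right h, max_eq_left h, add_comm]
    have m3 : nd c d.val (max a₁ a₂) ≤ nd c d.val (min b₁ b₂ + 1) := nd_mono _ _ (by have := s1.le; have := s2.le; omega)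
    rw [e1.1, e1.2] at ht
    -- no level not of class `d` in the overlap
    have hov : ∀ r, max a₁ a₂ ≤ r → r ≤ min b₁ b₂ → r % c = d.val := by
      intro r h1 h2
      by_contra hcon
      have h3 := nd_succ c d.val r
      rw [if_pos hcon] at h3
      have h4 := nd_mono c d.val h1
      have h5 := nd_mono c d.val (show r + 1 ≤ min b₁ b₂ + 1 by omega)
      omega
    rcases (hK _).1 hz with hz | hz
    · obtain ⟨A, e, t', a', b', g1, g2, g3, g4, g5, g6, g7, g8, g9⟩ := ih₁ a₁ b₁ s1 (by omega) (lev z) ⟨z, hz, rfl⟩ hs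
      refine ⟨A, e, t', a', b', g1, g2, g3, g4, g5, fun v hv => (hK _).2 (Or.inl (g6 hv)), g7, g8, fun v hv h1 h2 h3 => ?_⟩
      rcases (hK _).1 hv with hv | hv
      · exact g9 v hv h1 h2 h3
      · exfalso
        obtain ⟨x1, hx1, f1⟩ := g3.2.1
        obtain ⟨x2, hx2, f2⟩ := g3.2.2
        have p1 := s1.1 x1 (g6 hx1)
        have p2 := s1.1 x2 (g6 hx2)
        have p3 := s2.1 v hv
        exact h1 (hov (lev v) (by omega) (by omega))
    · obtain ⟨A, e, t', a', b', g1, g2, g3, g4, g5, g6, g7, g8, g9⟩ := ih₂ a₂ b₂ s2 (by omega) (lev z) ⟨z, hz, rfl⟩ hs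
      refine ⟨A, e, t', a', b', g1, g2, g3, g4, g5, fun v hv => (hK _).2 (Or.inr (g6 hv)), g7, g8, fun v hv h1 h2 h3 => ?_⟩
      rcases (hK _).1 hv with hv | hv
      · exfalso
        obtain ⟨x1, hx1, f1⟩ := g3.2.1
        obtain ⟨x2, hx2, f2⟩ := g3.2.2
        have p1 := s2.1 x1 (g6 hx1)
        have p2 := s2.1 x2 (g6 hx2)
        have p3 := s1.1 v hv
        exact h1 (hov (lev v) (by omega) (by omega))
      · exact g9 v hv h1 h2 h3

end Pool.Agent.Lib.Flood
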